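import Mathlib

set_option autoImplicit false

namespace Pool.Agent.Results.MP_9dc182_co.DivisibleByAB

open MeasureTheory Set Filter Topology

/-- the closed triangle with vertices `A`, `B`, `C` in the Euclidean plane `ℂ` -/
def tri (A B C : ℂ) : Set ℂ := convexHull ℝ {A, B, C}

/-- `N` triangles `A i B i C i` tile the triangle `P Q S`: their union is `P Q S` and their
interiors are pairwise disjoint -/
def IsTiling {N : ℕ} (A B C : Fin N → ℂ) (P Q S : ℂ) : Prop :=
  (⋃ i, tri (A i) (B i) (C i)) = tri P Q S ∧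
    ∀ i j, i ≠ j → Disjoint (interior (tri (A i) (B i) (C i))) (interior (tri (A j) (B j) (C j)))

/-- `X` is equiconstructible by `(a,b,c)`: an equilateral triangle of side `X` is the union of
finitely many triangles with side lengths `a, b, c` (so congruent to the triangle `(a,b,c)`,
reflections allowed) with pairwise disjoint interiors. -/
def Equiconstructible (a b c : ℕ) (X : ℝ) : Prop :=
  ∃ P Q S : ℂ, dist P Q = X ∧ dist Q S = X ∧ dist S P = X ∧
    ∃ (N : ℕ) (A B C : Fin N → ℂ),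
      (∀ i, dist (B i) (C i) = a ∧ dist (C i) (A i) = b ∧ dist (A i) (B i) = c) ∧
        IsTiling A B C P Q S

/-! ### Slices of a triangle -/

lemma mem_tri (A B C z : ℂ) : z ∈ tri A B C ↔
    ∃ x y w : ℝ, 0 ≤ x ∧ 0 ≤ y ∧ 0 ≤ w ∧ x + y + w = 1 ∧
      z.re = x * A.re + y * B.re + w * C.re ∧ z.im = x * A.im + y * B.im + w * C.im := by
  unfold tri
  rw [convexHull_insert (by simp), convexHull_pair]
  simp only [convexJoin_singleton_left, mem_iUnion, exists_prop]
  constructor
  · rintro ⟨u, ⟨p, q, hp, hq, hpq, rfl⟩, ⟨r, s, hr, hs, hrs, rfl⟩⟩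
    refine ⟨r, s * p, s * q, hr, by positivity, by positivity, ?_, ?_, ?_⟩
    · have : s * p + s * q = s := by rw [← mul_add, hpq, mul_one]
      linarith
    · simp; ring
    · simp; ring
  · rintro ⟨x, y, w, hx, hy, hw, h1, h2, h3⟩
    by_cases h0 : y + w = 0
    · have hy0 : y = 0 := by linarith
      have hw0 : w = 0 := by linarith
      subst hy0 hw0
      refine ⟨B, left_mem_segment _ _ _, ⟨1, 0, by norm_num, le_rfl, by norm_num, ?_⟩⟩
      apply Complex.ext
      · simp; rw [h2]; have : x = 1 := by linarith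
        rw [this]; ring
      · simp; rw [h3]; have : x = 1 := by linarith
        rw [this]; ring
    · have hpos : 0 < y + w := lt_of_le_of_ne (by positivity) (Ne.symm h0)
      refine ⟨(y / (y + w)) • B + (w / (y + w)) • C,
        ⟨y / (y + w), w / (y + w), by positivity, by positivity, by field_simp, rfl⟩,
        ⟨x, y + w, hx, hpos.le, by linarith, ?_⟩⟩
      apply Complex.ext
      · simp only [Complex.add_re, Complex.smul_re, smul_eq_mul]
        rw [h2]; field_simp; ring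
      · simp only [Complex.add_im, Complex.smul_im, smul_eq_mul]
        rw [h3]; field_simp; ring

lemma tri_rot (A B C : ℂ) : tri A B C = tri B C A := by
  unfold tri
  congr 1
  ext x
  simp only [mem_insert_iff, mem_singleton_iff]
  tauto

/-- vertical slice -/
def slice (P : Set ℂ) (s : ℝ) : Set ℝ := {t | (⟨s, t⟩ : ℂ) ∈ P}

/-- twice the signed area -/
def cr (A B C : ℂ) : ℝ := (B.re - A.re) * (C.im - A.im) - (B.im - A.im) * (C.re - A.re)

lemma cr_rot (A B C : ℂ) : cr A B C = cr B C A := by unfold cr; ring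

noncomputable def YY (z w : ℂ) (s : ℝ) : ℝ := z.im + (s - z.re) * (w.im - z.im) / (w.re - z.re)

noncomputable def EE (z w : ℂ) (s : ℝ) : ℝ :=
  if z.re < s ∧ s < w.re then -YY z w s else if w.re < s ∧ s < z.re then YY z w s else 0

noncomputable def ES (A B C : ℂ) (s : ℝ) : ℝ := EE A B s + EE B C s + EE C A s

lemma ES_rot (A B C : ℂ) (s : ℝ) : ES A B C s = ES B C A s := by unfold ES; ring

lemma YY_symm (z w : ℂ) (s : ℝ) (h : z.re ≠ w.re) : YY z w s = YY w z s := by
  unfold YY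
  have h1 : w.re - z.re ≠ 0 := sub_ne_zero.2 h.symm
  have h2 : z.re - w.re ≠ 0 := sub_ne_zero.2 h
  field_simp
  ring

lemma slice_lone (A B C : ℂ) (s α β : ℝ) (hα0 : 0 < α) (hα1 : α < 1) (hβ0 : 0 < β) (hβ1 : β < 1)
    (hα : α * (B.re - A.re) = s - A.re) (hβ : β * (C.re - A.re) = s - A.re)
    (hs : s ≠ A.re) :
    slice (tri A B C) s =
      uIcc (A.im + α * (B.im - A.im)) (A.im + β * (C.im - A.im)) := by
  rw [← segment_eq_uIcc]
  have hr : s - A.re ≠ 0 := sub_ne_zero.2 hs
  ext t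
  simp only [slice, mem_ofPred_eq, mem_tri]
  constructor
  · rintro ⟨x, y, w, hx, hy, hw, h1, h2, h3⟩
    have e : y / α + w / β = 1 := by
      have : (y / α + w / β) * (s - A.re) = s - A.re := by
        have e1 : y / α * (s - A.re) = y * (B.re - A.re) := by rw [← hα]; field_simp
        have e2 : w / β * (s - A.re) = w * (C.re - A.re) := by rw [← hβ]; field_simp
        rw [add_mul, e1, e2]
        have : x = 1 - y - w := by linarith
        rw [this] at h2
        linarith
      exact mul_right_cancel₀ hr (by rw [this, one_mul])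
    refine ⟨y / α, w / β, by positivity, by positivity, e, ?_⟩
    simp only [smul_eq_mul]
    rw [h3]
    have : x = 1 - y - w := by linarith
    rw [this]
    have e1 : y / α * (A.im + α * (B.im - A.im)) = y / α * A.im + y * (B.im - A.im) := by
      field_simp
    have e2 : w / β * (A.im + β * (C.im - A.im)) = w / β * A.im + w * (C.im - A.im) := by
      field_simp
    rw [e1, e2]
    have : y / α * A.im + w / β * A.im = A.im := by rw [← add_mul, e, one_mul]
    linarith
  · rintro ⟨p, q, hp, hq, hpq, rfl⟩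
    refine ⟨1 - p * α - q * β, p * α, q * β, ?_, by positivity, by positivity, by ring, ?_, ?_⟩
    · nlinarith
    · have : p * α * (B.re - A.re) + q * β * (C.re - A.re) = s - A.re := by
        rw [mul_assoc, mul_assoc, hα, hβ, ← add_mul, hpq, one_mul]
      linarith
    · simp only [smul_eq_mul]
      have : p * A.im + q * A.im = A.im := by rw [← add_mul, hpq, one_mul]
      linarith

/-- the length of the slice when `A` is alone on its side -/
lemma vol_lone (A B C : ℂ) (s : ℝ)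
    (h : (A.re < s ∧ s < B.re ∧ s < C.re) ∨ (s < A.re ∧ B.re < s ∧ C.re < s)) :
    (volume (slice (tri A B C) s)).toReal = SignType.sign (cr A B C) * ES A B C s := by
  have hp : B.re - A.re ≠ 0 := by rcases h with h | h <;> intro h' <;> linarith [h.1, h.2.1]
  have hq : C.re - A.re ≠ 0 := by rcases h with h | h <;> intro h' <;> linarith [h.1, h.2.2]
  have hα0 : 0 < (s - A.re) / (B.re - A.re) := by
    rcases h with h | h
    · exact div_pos (by linarith [h.1]) (by linarith [h.1, h.2.1])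
    · exact div_pos_of_neg_of_neg (by linarith [h.1]) (by linarith [h.1, h.2.1])
  have hβ0 : 0 < (s - A.re) / (C.re - A.re) := by
    rcases h with h | h
    · exact div_pos (by linarith [h.1]) (by linarith [h.1, h.2.2])
    · exact div_pos_of_neg_of_neg (by linarith [h.1]) (by linarith [h.1, h.2.2])
  have hα1 : (s - A.re) / (B.re - A.re) < 1 := by
    rcases h with h | h
    · rw [div_lt_one (by linarith [h.1, h.2.1])]; linarith [h.2.1]
    · rw [div_lt_one_of_neg (by linarith [h.1, h.2.1])]; linarith [h.2.1]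
  have hβ1 : (s - A.re) / (C.re - A.re) < 1 := by
    rcases h with h | h
    · rw [div_lt_one (by linarith [h.1, h.2.2])]; linarith [h.2.2]
    · rw [div_lt_one_of_neg (by linarith [h.1, h.2.2])]; linarith [h.2.2]
  have hs : s ≠ A.re := by rcases h with h | h <;> intro h' <;> linarith [h.1]
  rw [slice_lone A B C s _ _ hα0 hα1 hβ0 hβ1 (by field_simp) (by field_simp) hs,
    Real.volume_interval, ENNReal.toReal_ofReal (abs_nonneg _)]
  have e1 : A.im + (s - A.re) / (C.re - A.re) * (C.im - A.im) = YY A C s := by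
    unfold YY; ring
  have e2 : A.im + (s - A.re) / (B.re - A.re) * (B.im - A.im) = YY A B s := by
    unfold YY; ring
  rw [e1, e2]
  have hdiff : YY A C s - YY A B s = cr A B C * ((s - A.re) / ((B.re - A.re) * (C.re - A.re))) := by
    unfold YY cr
    field_simp
    ring
  have hAC : A.re ≠ C.re := fun h' => hq (by rw [h']; ring)
  rcases h with h | h
  · have hES : ES A B C s = YY A C s - YY A B s := by
      unfold ES EE
      rw [if_pos ⟨h.1, h.2.1⟩, if_neg (by intro h'; linarith [h.2.1, h'.1]),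
        if_neg (by intro h'; linarith [h.2.2, h'.1]), if_neg (by intro h'; linarith [h.1, h'.2]),
        if_pos ⟨h.1, h.2.2⟩, YY_symm C A s hAC.symm]
      ring
    rw [hES, hdiff]
    have hk : 0 < (s - A.re) / ((B.re - A.re) * (C.re - A.re)) :=
      div_pos (by linarith [h.1]) (mul_pos (by linarith [h.1, h.2.1]) (by linarith [h.1, h.2.2]))
    rw [abs_mul, abs_of_pos hk, ← mul_assoc, sign_mul_self]
  · have hES : ES A B C s = -(YY A C s - YY A B s) := by
      unfold ES EE
      rw [if_neg (by intro h'; linarith [h.1, h'.1]), if_pos ⟨h.2.1, h.1⟩,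
        if_neg (by intro h'; linarith [h.2.2, h'.2]), if_neg (by intro h'; linarith [h.2.1, h'.2]),
        if_pos ⟨h.2.2, h.1⟩, YY_symm C A s hAC.symm]
      ring
    rw [hES, hdiff]
    have hk : (s - A.re) / ((B.re - A.re) * (C.re - A.re)) < 0 :=
      div_neg_of_neg_of_pos (by linarith [h.1])
        (mul_pos_of_neg_of_neg (by linarith [h.1, h.2.1]) (by linarith [h.1, h.2.2]))
    rw [abs_mul, abs_of_neg hk, mul_neg, mul_neg, ← mul_assoc, sign_mul_self]

lemma vol_slice (A B C : ℂ) (s : ℝ) (hA : s ≠ A.re) (hB : s ≠ B.re)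
    (hC : s ≠ C.re) :
    (volume (slice (tri A B C) s)).toReal = SignType.sign (cr A B C) * ES A B C s := by
  rcases lt_or_gt_of_ne hA with a | a <;> rcases lt_or_gt_of_ne hB with b | b <;>
    rcases lt_or_gt_of_ne hC with c | c
  · -- all to the right
    have h0 : slice (tri A B C) s = ∅ := by
      ext t
      simp only [slice, mem_ofPred_eq, mem_tri, mem_empty_iff_false, iff_false]
      rintro ⟨x, y, w, hx, hy, hw, h1, h2, -⟩
      have e : x * (A.re - s) + y * (B.re - s) + w * (C.re - s) = 0 := by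
        linear_combination -h2 - s * h1
      have f1 := mul_nonneg hx (sub_nonneg.2 a.le)
      have f2 := mul_nonneg hy (sub_nonneg.2 b.le)
      have f3 := mul_nonneg hw (sub_nonneg.2 c.le)
      have g1 : x = 0 := (mul_eq_zero.1 (show x * (A.re - s) = 0 by linarith)).resolve_right
        (by intro h'; linarith)
      have g2 : y = 0 := (mul_eq_zero.1 (show y * (B.re - s) = 0 by linarith)).resolve_right
        (by intro h'; linarith)
      have g3 : w = 0 := (mul_eq_zero.1 (show w * (C.re - s) = 0 by linarith)).resolve_right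
        (by intro h'; linarith)
      linarith
    rw [h0]
    unfold ES EE
    rw [if_neg (by intro h'; linarith [h'.1]), if_neg (by intro h'; linarith [h'.1]),
      if_neg (by intro h'; linarith [h'.1]), if_neg (by intro h'; linarith [h'.1]),
      if_neg (by intro h'; linarith [h'.1]), if_neg (by intro h'; linarith [h'.1])]
    simp
  · rw [tri_rot, tri_rot, cr_rot, cr_rot, ES_rot, ES_rot]
    exact vol_lone C A B s (Or.inl ⟨c, a, b⟩)
  · rw [tri_rot, cr_rot, ES_rot]
    exact vol_lone B C A s (Or.inl ⟨b, c, a⟩)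
  · exact vol_lone A B C s (Or.inr ⟨a, b, c⟩)
  · exact vol_lone A B C s (Or.inl ⟨a, b, c⟩)
  · rw [tri_rot, cr_rot, ES_rot]
    exact vol_lone B C A s (Or.inr ⟨b, c, a⟩)
  · rw [tri_rot, tri_rot, cr_rot, cr_rot, ES_rot, ES_rot]
    exact vol_lone C A B s (Or.inr ⟨c, a, b⟩)
  · have h0 : slice (tri A B C) s = ∅ := by
      ext t
      simp only [slice, mem_ofPred_eq, mem_tri, mem_empty_iff_false, iff_false]
      rintro ⟨x, y, w, hx, hy, hw, h1, h2, -⟩
      have e : x * (s - A.re) + y * (s - B.re) + w * (s - C.re) = 0 := by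
        linear_combination h2 + s * h1
      have f1 := mul_nonneg hx (sub_nonneg.2 a.le)
      have f2 := mul_nonneg hy (sub_nonneg.2 b.le)
      have f3 := mul_nonneg hw (sub_nonneg.2 c.le)
      have g1 : x = 0 := (mul_eq_zero.1 (show x * (s - A.re) = 0 by linarith)).resolve_right
        (by intro h'; linarith)
      have g2 : y = 0 := (mul_eq_zero.1 (show y * (s - B.re) = 0 by linarith)).resolve_right
        (by intro h'; linarith)
      have g3 : w = 0 := (mul_eq_zero.1 (show w * (s - C.re) = 0 by linarith)).resolve_right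
        (by intro h'; linarith)
      linarith
    rw [h0]
    unfold ES EE
    rw [if_neg (by intro h'; linarith [h'.2]), if_neg (by intro h'; linarith [h'.2]),
      if_neg (by intro h'; linarith [h'.2]), if_neg (by intro h'; linarith [h'.2]),
      if_neg (by intro h'; linarith [h'.2]), if_neg (by intro h'; linarith [h'.2])]
    simp


/-! ### One-sided limits -/

noncomputable def Rt (z w : ℂ) (h : ℝ) : ℝ :=
  if z.re ≤ h ∧ h < w.re then -YY z w h else if w.re ≤ h ∧ h < z.re then YY z w h else 0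

noncomputable def Lf (z w : ℂ) (h : ℝ) : ℝ :=
  if z.re < h ∧ h ≤ w.re then -YY z w h else if w.re < h ∧ h ≤ z.re then YY z w h else 0

lemma cont_YY (z w : ℂ) : Continuous (YY z w) := by
  unfold YY
  fun_prop

lemma tendsto_Rt (z w : ℂ) (h : ℝ) : Tendsto (EE z w) (𝓝[>] h) (𝓝 (Rt z w h)) := by
  have hc : Tendsto (YY z w) (𝓝[>] h) (𝓝 (YY z w h)) :=
    ((cont_YY z w).tendsto h).mono_left nhdsWithin_le_nhds
  unfold Rt
  split_ifs with h1 h2
  · refine (hc.neg).congr' ?_
    filter_upwards [Ioo_mem_nhdsGT h1.2] with s hs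
    unfold EE
    rw [if_pos ⟨lt_of_le_of_lt h1.1 hs.1, hs.2⟩]
  · refine hc.congr' ?_
    filter_upwards [Ioo_mem_nhdsGT h2.2] with s hs
    unfold EE
    rw [if_neg (by intro h'; linarith [hs.1, h'.2, h2.1]),
      if_pos ⟨lt_of_le_of_lt h2.1 hs.1, hs.2⟩]
  · refine tendsto_const_nhds.congr' ?_
    have e1 : ∀ᶠ s in 𝓝[>] h, ¬ (z.re < s ∧ s < w.re) := by
      by_cases hz : z.re ≤ h
      · have : w.re ≤ h := by
          by_contra hh
          exact h1 ⟨hz, not_le.1 hh⟩
        filter_upwards [self_mem_nhdsWithin] with s hs h'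
        have : h < s := hs
        linarith [h'.2]
      · filter_upwards [Ioo_mem_nhdsGT (not_le.1 hz)] with s hs h'
        linarith [hs.2, h'.1]
    have e2 : ∀ᶠ s in 𝓝[>] h, ¬ (w.re < s ∧ s < z.re) := by
      by_cases hw : w.re ≤ h
      · have : z.re ≤ h := by
          by_contra hh
          exact h2 ⟨hw, not_le.1 hh⟩
        filter_upwards [self_mem_nhdsWithin] with s hs h'
        have : h < s := hs
        linarith [h'.2]
      · filter_upwards [Ioo_mem_nhdsGT (not_le.1 hw)] with s hs h'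
        linarith [hs.2, h'.1]
    filter_upwards [e1, e2] with s h3 h4
    unfold EE
    rw [if_neg h3, if_neg h4]

lemma tendsto_Lf (z w : ℂ) (h : ℝ) : Tendsto (EE z w) (𝓝[<] h) (𝓝 (Lf z w h)) := by
  have hc : Tendsto (YY z w) (𝓝[<] h) (𝓝 (YY z w h)) :=
    ((cont_YY z w).tendsto h).mono_left nhdsWithin_le_nhds
  unfold Lf
  split_ifs with h1 h2
  · refine (hc.neg).congr' ?_
    filter_upwards [Ioo_mem_nhdsLT h1.1] with s hs
    unfold EE
    rw [if_pos ⟨hs.1, lt_of_lt_of_le hs.2 h1.2⟩]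
  · refine hc.congr' ?_
    filter_upwards [Ioo_mem_nhdsLT h2.1] with s hs
    unfold EE
    rw [if_neg (by intro h'; linarith [hs.2, h'.1, h2.2]),
      if_pos ⟨hs.1, lt_of_lt_of_le hs.2 h2.2⟩]
  · refine tendsto_const_nhds.congr' ?_
    have e1 : ∀ᶠ s in 𝓝[<] h, ¬ (z.re < s ∧ s < w.re) := by
      by_cases hw : h ≤ w.re
      · have : h ≤ z.re := by
          by_contra hh
          exact h1 ⟨not_le.1 hh, hw⟩
        filter_upwards [self_mem_nhdsWithin] with s hs h'
        have : s < h := hs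
        linarith [h'.1]
      · filter_upwards [Ioo_mem_nhdsLT (not_le.1 hw)] with s hs h'
        linarith [hs.1, h'.2]
    have e2 : ∀ᶠ s in 𝓝[<] h, ¬ (w.re < s ∧ s < z.re) := by
      by_cases hz : h ≤ z.re
      · have : h ≤ w.re := by
          by_contra hh
          exact h2 ⟨not_le.1 hh, hz⟩
        filter_upwards [self_mem_nhdsWithin] with s hs h'
        have : s < h := hs
        linarith [h'.1]
      · filter_upwards [Ioo_mem_nhdsLT (not_le.1 hz)] with s hs h'
        linarith [hs.1, h'.2]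
    filter_upwards [e1, e2] with s h3 h4
    unfold EE
    rw [if_neg h3, if_neg h4]

noncomputable def vh (z w : ℂ) (h : ℝ) : ℝ := if z.re = h ∧ w.re = h then w.im - z.im else 0

lemma jump_edge (z w : ℂ) (h : ℝ) : Rt z w h - Lf z w h =
    ((if w.re = h then w.im else 0) - (if z.re = h then z.im else 0)) - vh z w h := by
  unfold Rt Lf vh
  have hz : z.re ≠ w.re → YY z w z.re = z.im := by
    intro _; unfold YY; simp
  have hw : z.re ≠ w.re → YY z w w.re = w.im := by
    intro hne; unfold YY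
    have : w.re - z.re ≠ 0 := sub_ne_zero.2 hne.symm
    field_simp
    ring
  rcases lt_trichotomy z.re w.re with h1 | h1 | h1
  · have hz' := hz h1.ne
    have hw' := hw h1.ne
    rcases lt_trichotomy z.re h with h2 | h2 | h2
    · rcases lt_trichotomy w.re h with h3 | h3 | h3
      · simp [h2, h3, h2.le, h3.le, h2.not_ge, h3.not_ge, h2.ne, h3.ne, h2.not_gt, h3.not_gt]
      · subst h3
        simp [h2, h2.le, h2.ne, h2.not_ge, hw', h2.not_gt]
      · simp [h2, h3, h2.le, h3.le, h2.not_ge, h3.not_ge, h2.ne, h3.ne', h2.not_gt, h3.not_gt]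
    · subst h2
      simp [h1, h1.le, h1.ne, h1.ne', h1.not_ge, hz', h1.not_gt]
    · have h3 : h < w.re := h2.trans h1
      simp [h2, h3, h2.le, h3.le, h2.not_ge, h3.not_ge, h2.ne', h3.ne', h2.not_gt, h3.not_gt]
  · rcases lt_trichotomy z.re h with h2 | h2 | h2
    · have h3 : w.re < h := h1 ▸ h2
      simp [h2, h3, h2.le, h3.le, h2.not_ge, h3.not_ge, h2.ne, h3.ne, h2.not_gt, h3.not_gt]
    · have h3 : w.re = h := h1 ▸ h2
      simp [h2, h3]
    · have h3 : h < w.re := h1 ▸ h2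
      simp [h2, h3, h2.le, h3.le, h2.not_ge, h3.not_ge, h2.ne', h3.ne', h2.not_gt, h3.not_gt]
  · have hz' := hz h1.ne'
    have hw' := hw h1.ne'
    rcases lt_trichotomy w.re h with h2 | h2 | h2
    · rcases lt_trichotomy z.re h with h3 | h3 | h3
      · simp [h2, h3, h2.le, h3.le, h2.not_ge, h3.not_ge, h2.ne, h3.ne, h2.not_gt, h3.not_gt]
      · subst h3
        simp [h2, h2.le, h2.ne, h2.not_ge, hz', h2.not_gt]
      · simp [h2, h3, h2.le, h3.le, h2.not_ge, h3.not_ge, h2.ne, h3.ne', h2.not_gt, h3.not_gt]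
    · subst h2
      simp [h1, h1.le, h1.ne, h1.ne', h1.not_ge, hw', h1.not_gt]
    · have h3 : h < z.re := h2.trans h1
      simp [h2, h3, h2.le, h3.le, h2.not_ge, h3.not_ge, h2.ne', h3.ne', h2.not_gt, h3.not_gt]

lemma jump_tri (A B C : ℂ) (h : ℝ) :
    (Rt A B h + Rt B C h + Rt C A h) - (Lf A B h + Lf B C h + Lf C A h)
      = -(vh A B h + vh B C h + vh C A h) := by
  have h1 := jump_edge A B h
  have h2 := jump_edge B C h
  have h3 := jump_edge C A h
  linarith

/-! ### Additivity of slices -/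

lemma isCompact_tri (A B C : ℂ) : IsCompact (tri A B C) :=
  (Set.toFinite {A, B, C}).isCompact_convexHull ℝ

lemma measurable_slice (A B C : ℂ) (s : ℝ) : MeasurableSet (slice (tri A B C) s) := by
  have hc : Continuous (fun t : ℝ => (⟨s, t⟩ : ℂ)) := by
    have : (fun t : ℝ => (⟨s, t⟩ : ℂ)) = fun t : ℝ => (s : ℂ) + t * Complex.I := by
      funext t; apply Complex.ext <;> simp
    rw [this]; fun_prop
  exact ((isCompact_tri A B C).isClosed.preimage hc).measurableSet

lemma finite_slice (A B C : ℂ) (s : ℝ) : volume (slice (tri A B C) s) ≠ ⊤ := by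
  have h : slice (tri A B C) s ⊆ Complex.im '' (tri A B C) := by
    intro t ht
    exact ⟨⟨s, t⟩, ht, rfl⟩
  exact ((measure_mono h).trans_lt
    (((isCompact_tri A B C).image Complex.continuous_im).measure_lt_top)).ne

lemma ae_add {N : ℕ} {A B C : Fin N → ℂ} {P Q S : ℂ} (hT : IsTiling A B C P Q S) :
    ∀ᵐ s : ℝ, (volume (slice (tri P Q S) s)).toReal =
      ∑ i, (volume (slice (tri (A i) (B i) (C i)) s)).toReal := by
  have hnull : ∀ i j, i ≠ j → ∀ᵐ s : ℝ,
      volume (slice (tri (A i) (B i) (C i)) s ∩ slice (tri (A j) (B j) (C j)) s) = 0 := by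
    intro i j hij
    have hz : volume (tri (A i) (B i) (C i) ∩ tri (A j) (B j) (C j)) = 0 := by
      have hsub : tri (A i) (B i) (C i) ∩ tri (A j) (B j) (C j) ⊆
          frontier (tri (A i) (B i) (C i)) ∪ frontier (tri (A j) (B j) (C j)) := by
        rintro x ⟨hx1, hx2⟩
        by_contra hcon
        rw [mem_union, not_or] at hcon
        have i1 : x ∈ interior (tri (A i) (B i) (C i)) := by
          by_contra h'
          exact hcon.1 ⟨subset_closure hx1, h'⟩
        have i2 : x ∈ interior (tri (A j) (B j) (C j)) := by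
          by_contra h'
          exact hcon.2 ⟨subset_closure hx2, h'⟩
        exact Set.disjoint_left.1 (hT.2 i j hij) i1 i2
      refine measure_mono_null hsub (measure_union_null ?_ ?_)
      · exact (convex_convexHull ℝ _).addHaar_frontier volume
      · exact (convex_convexHull ℝ _).addHaar_frontier volume
    have hpre : (volume.prod volume) (Complex.measurableEquivRealProd.symm ⁻¹'
        (tri (A i) (B i) (C i) ∩ tri (A j) (B j) (C j))) = 0 := by
      have := (Complex.volume_preserving_equiv_real_prod.symm).measure_preimage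
        ((isCompact_tri (A i) (B i) (C i)).isClosed.measurableSet.inter
          (isCompact_tri (A j) (B j) (C j)).isClosed.measurableSet).nullMeasurableSet
      rw [hz] at this
      exact this
    have h2 := Measure.measure_ae_null_of_prod_null hpre
    filter_upwards [h2] with s hs
    exact hs
  have hall : ∀ᵐ s : ℝ, ∀ i j, i ≠ j →
      volume (slice (tri (A i) (B i) (C i)) s ∩ slice (tri (A j) (B j) (C j)) s) = 0 := by
    rw [ae_all_iff]; intro i
    rw [ae_all_iff]; intro j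
    by_cases hij : i = j
    · exact Filter.Eventually.of_forall fun s h => absurd hij h
    · filter_upwards [hnull i j hij] with s hs _
      exact hs
  filter_upwards [hall] with s hs
  have hunion : slice (tri P Q S) s = ⋃ i, slice (tri (A i) (B i) (C i)) s := by
    rw [← hT.1]
    ext t
    simp only [slice, mem_iUnion, mem_ofPred_eq]
  rw [hunion, measure_iUnion₀ (fun i j hij => hs i j hij)
    (fun i => (measurable_slice _ _ _ s).nullMeasurableSet), tsum_fintype,
    ENNReal.toReal_sum fun i _ => finite_slice _ _ _ s]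


/-- signed length of vertical edges -/
noncomputable def ve (z w : ℂ) : ℝ := if z.re = w.re then w.im - z.im else 0

lemma sum_vh (z w : ℂ) (H : Finset ℝ) (hz : z.re ∈ H) : ∑ h ∈ H, vh z w h = ve z w := by
  unfold vh ve
  by_cases hzw : z.re = w.re
  · rw [if_pos hzw]
    rw [Finset.sum_eq_single z.re]
    · rw [if_pos ⟨rfl, hzw.symm⟩]
    · intro b _ hb
      rw [if_neg (fun h' => hb h'.1.symm)]
    · intro h'; exact absurd hz h'
  · rw [if_neg hzw]
    apply Finset.sum_eq_zero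
    intro h _
    rw [if_neg]
    rintro ⟨h1, h2⟩
    exact hzw (h1.trans h2.symm)

/-- **Additivity of the signed length of vertical edges.** -/
lemma vertical {N : ℕ} {A B C : Fin N → ℂ} {P Q S : ℂ} (hT : IsTiling A B C P Q S) :
    ∑ i, (SignType.sign (cr (A i) (B i) (C i)) : ℝ) *
        (ve (A i) (B i) + ve (B i) (C i) + ve (C i) (A i)) =
      (SignType.sign (cr P Q S) : ℝ) * (ve P Q + ve Q S + ve S P) := by
  classical
  obtain ⟨H, hH⟩ : ∃ H : Finset ℝ, H = (Finset.univ.image fun i => (A i).re) ∪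
      (Finset.univ.image fun i => (B i).re) ∪ (Finset.univ.image fun i => (C i).re) ∪
      {P.re, Q.re, S.re} := ⟨_, rfl⟩
  have hA : ∀ i, (A i).re ∈ H := by intro i; rw [hH]; simp
  have hB : ∀ i, (B i).re ∈ H := by intro i; rw [hH]; simp
  have hC : ∀ i, (C i).re ∈ H := by intro i; rw [hH]; simp
  have hP : P.re ∈ H := by rw [hH]; simp
  have hQ : Q.re ∈ H := by rw [hH]; simp
  have hS : S.re ∈ H := by rw [hH]; simp
  -- the good set
  have hgood : ∀ᵐ s : ℝ, (SignType.sign (cr P Q S) : ℝ) * ES P Q S s =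
      ∑ i, (SignType.sign (cr (A i) (B i) (C i)) : ℝ) * ES (A i) (B i) (C i) s := by
    have hHn : ∀ᵐ s : ℝ, s ∉ H := by
      rw [ae_iff]
      have : {a : ℝ | ¬ a ∉ H} = (H : Set ℝ) := by ext a; simp
      rw [this]
      exact (Finset.finite_toSet H).measure_zero volume
    filter_upwards [ae_add hT, hHn] with s h1 h2
    have hne : ∀ x ∈ H, s ≠ x := fun x hx h' => h2 (h' ▸ hx)
    rw [vol_slice P Q S s (hne _ hP) (hne _ hQ) (hne _ hS)] at h1
    rw [h1]
    exact Finset.sum_congr rfl fun i _ =>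
      vol_slice _ _ _ s (hne _ (hA i)) (hne _ (hB i)) (hne _ (hC i))
  have tR : ∀ A B C : ℂ, ∀ h, Tendsto (ES A B C) (𝓝[>] h)
      (𝓝 (Rt A B h + Rt B C h + Rt C A h)) := fun A B C h =>
    ((tendsto_Rt A B h).add (tendsto_Rt B C h)).add (tendsto_Rt C A h)
  have tL : ∀ A B C : ℂ, ∀ h, Tendsto (ES A B C) (𝓝[<] h)
      (𝓝 (Lf A B h + Lf B C h + Lf C A h)) := fun A B C h =>
    ((tendsto_Lf A B h).add (tendsto_Lf B C h)).add (tendsto_Lf C A h)
  have hdense : ∀ U : Set ℝ, IsOpen U → U.Nonempty → ∃ s ∈ U,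
      (SignType.sign (cr P Q S) : ℝ) * ES P Q S s =
      ∑ i, (SignType.sign (cr (A i) (B i) (C i)) : ℝ) * ES (A i) (B i) (C i) s := by
    intro U hU hne
    by_contra hcon
    push Not at hcon
    have hsub : U ⊆ {s : ℝ | ¬ ((SignType.sign (cr P Q S) : ℝ) * ES P Q S s =
      ∑ i, (SignType.sign (cr (A i) (B i) (C i)) : ℝ) * ES (A i) (B i) (C i) s)} :=
      fun s hs => hcon s hs
    have := measure_mono_null hsub (ae_iff.1 hgood)
    exact (hU.measure_pos volume hne).ne' this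
  have key : ∀ h : ℝ, ∑ i, (SignType.sign (cr (A i) (B i) (C i)) : ℝ) *
        (vh (A i) (B i) h + vh (B i) (C i) h + vh (C i) (A i) h) =
      (SignType.sign (cr P Q S) : ℝ) * (vh P Q h + vh Q S h + vh S P h) := by
    intro h
    have hR : (SignType.sign (cr P Q S) : ℝ) * (Rt P Q h + Rt Q S h + Rt S P h) =
        ∑ i, (SignType.sign (cr (A i) (B i) (C i)) : ℝ) *
          (Rt (A i) (B i) h + Rt (B i) (C i) h + Rt (C i) (A i) h) := by
      have t1 := (tR P Q S h).const_mul (SignType.sign (cr P Q S) : ℝ)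
      have t2 := tendsto_finsetSum Finset.univ fun i _ =>
        (tR (A i) (B i) (C i) h).const_mul (SignType.sign (cr (A i) (B i) (C i)) : ℝ)
      refine tendsto_nhds_unique_of_frequently_eq t1 t2 ?_
      rw [Filter.frequently_iff]
      intro U hU
      obtain ⟨u, hu, hsub⟩ := mem_nhdsGT_iff_exists_Ioo_subset.1 hU
      obtain ⟨s, hs, hs2⟩ := hdense (Ioo h u) isOpen_Ioo (nonempty_Ioo.2 hu)
      exact ⟨s, hsub hs, hs2⟩
    have hL : (SignType.sign (cr P Q S) : ℝ) * (Lf P Q h + Lf Q S h + Lf S P h) =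
        ∑ i, (SignType.sign (cr (A i) (B i) (C i)) : ℝ) *
          (Lf (A i) (B i) h + Lf (B i) (C i) h + Lf (C i) (A i) h) := by
      have t1 := (tL P Q S h).const_mul (SignType.sign (cr P Q S) : ℝ)
      have t2 := tendsto_finsetSum Finset.univ fun i _ =>
        (tL (A i) (B i) (C i) h).const_mul (SignType.sign (cr (A i) (B i) (C i)) : ℝ)
      refine tendsto_nhds_unique_of_frequently_eq t1 t2 ?_
      rw [Filter.frequently_iff]
      intro U hU
      obtain ⟨u, hu, hsub⟩ := mem_nhdsLT_iff_exists_Ioo_subset.1 hU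
      obtain ⟨s, hs, hs2⟩ := hdense (Ioo u h) isOpen_Ioo (nonempty_Ioo.2 hu)
      exact ⟨s, hsub hs, hs2⟩
    have e : ∀ A B C : ℂ, vh A B h + vh B C h + vh C A h =
        (Lf A B h + Lf B C h + Lf C A h) - (Rt A B h + Rt B C h + Rt C A h) := by
      intro A B C
      have := jump_tri A B C h
      linarith
    simp only [e, mul_sub, Finset.sum_sub_distrib]
    rw [hR, hL]
  have hsum : ∑ h ∈ H, ∑ i, (SignType.sign (cr (A i) (B i) (C i)) : ℝ) *
        (vh (A i) (B i) h + vh (B i) (C i) h + vh (C i) (A i) h) =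
      ∑ h ∈ H, (SignType.sign (cr P Q S) : ℝ) * (vh P Q h + vh Q S h + vh S P h) :=
    Finset.sum_congr rfl fun h _ => key h
  rw [Finset.sum_comm] at hsum
  have e3 : ∀ (k : ℝ) (A B C : ℂ), A.re ∈ H → B.re ∈ H → C.re ∈ H →
      ∑ h ∈ H, k * (vh A B h + vh B C h + vh C A h) = k * (ve A B + ve B C + ve C A) := by
    intro k A B C h1 h2 h3
    rw [← Finset.mul_sum, Finset.sum_add_distrib, Finset.sum_add_distrib, sum_vh _ _ _ h1,
      sum_vh _ _ _ h2, sum_vh _ _ _ h3]
  rw [e3 _ P Q S hP hQ hS] at hsum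
  rw [← hsum]
  exact Finset.sum_congr rfl fun i _ => (e3 _ _ _ _ (hA i) (hB i) (hC i)).symm

/-! ### Rotations -/

lemma tri_mul (ρ A B C : ℂ) : tri (ρ * A) (ρ * B) (ρ * C) = (fun z => ρ * z) '' tri A B C := by
  unfold tri
  have : (fun z => ρ * z) = (LinearMap.mulLeft ℝ ρ : ℂ →ₗ[ℝ] ℂ) := rfl
  rw [this, LinearMap.image_convexHull]
  congr 1
  simp [image_insert_eq]

lemma tiling_mul {N : ℕ} {A B C : Fin N → ℂ} {P Q S : ℂ} (hT : IsTiling A B C P Q S) {ρ : ℂ}
    (hρ : ρ ≠ 0) : IsTiling (fun i => ρ * A i) (fun i => ρ * B i) (fun i => ρ * C i)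
      (ρ * P) (ρ * Q) (ρ * S) := by
  constructor
  · simp only [tri_mul]
    rw [← image_iUnion, hT.1]
  · intro i j hij
    simp only [tri_mul]
    have e : ∀ K : Set ℂ, interior ((fun z => ρ * z) '' K) = (fun z => ρ * z) '' interior K :=
      fun K => ((Homeomorph.mulLeft₀ ρ hρ).image_interior K).symm
    rw [e, e, Set.disjoint_image_iff (mul_right_injective₀ hρ)]
    exact hT.2 i j hij

lemma cr_mul (ρ A B C : ℂ) : cr (ρ * A) (ρ * B) (ρ * C) = Complex.normSq ρ * cr A B C := by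
  unfold cr
  simp only [Complex.mul_re, Complex.mul_im, Complex.normSq_apply]
  ring

/-- the signed length, in direction `v`, of the vector `w - z` if it is parallel to `v` -/
noncomputable def vd (v z w : ℂ) : ℝ := ve (Complex.I * star v * z) (Complex.I * star v * w)

lemma directed {N : ℕ} {A B C : Fin N → ℂ} {P Q S : ℂ} (hT : IsTiling A B C P Q S) (v : ℂ)
    (hv : ‖v‖ = 1) :
    ∑ i, (SignType.sign (cr (A i) (B i) (C i)) : ℝ) *
        (vd v (A i) (B i) + vd v (B i) (C i) + vd v (C i) (A i)) =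
      (SignType.sign (cr P Q S) : ℝ) * (vd v P Q + vd v Q S + vd v S P) := by
  have hv0 : v ≠ 0 := by rintro rfl; simp at hv
  have hρ : Complex.I * star v ≠ 0 := mul_ne_zero Complex.I_ne_zero (star_ne_zero.2 hv0)
  have h := vertical (tiling_mul hT hρ)
  have hn : Complex.normSq (Complex.I * star v) = 1 := by
    rw [Complex.normSq_eq_norm_sq, norm_mul, Complex.norm_I, norm_star, hv]; norm_num
  simp only [cr_mul, hn, one_mul] at h
  exact h

/-- value on a vector `l • d` with `d` of norm one -/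
lemma vd_eq (v z w d : ℂ) (l : ℝ) (hv : ‖v‖ = 1) (hd : ‖d‖ = 1) (h : w - z = l * d) :
    vd v z w = if d = v then l else if d = -v then -l else 0 := by
  have hv2 : v.re ^ 2 + v.im ^ 2 = 1 := by
    have := Complex.normSq_eq_norm_sq v
    rw [hv, Complex.normSq_apply] at this; nlinarith
  have hd2 : d.re ^ 2 + d.im ^ 2 = 1 := by
    have := Complex.normSq_eq_norm_sq d
    rw [hd, Complex.normSq_apply] at this; nlinarith
  have hre : w.re - z.re = l * d.re := by
    have := congrArg Complex.re h; simpa using this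
  have him : w.im - z.im = l * d.im := by
    have := congrArg Complex.im h; simpa using this
  have r1 : ∀ z : ℂ, (Complex.I * star v * z).re = v.im * z.re - v.re * z.im := by
    intro z; simp
  have r2 : ∀ z : ℂ, (Complex.I * star v * z).im = v.re * z.re + v.im * z.im := by
    intro z; simp; ring
  unfold vd ve
  rw [r1, r1, r2, r2]
  have e1 : v.re * w.re + v.im * w.im - (v.re * z.re + v.im * z.im) =
      l * (v.re * d.re + v.im * d.im) := by
    have : v.re * (w.re - z.re) + v.im * (w.im - z.im) = l * (v.re * d.re + v.im * d.im) := by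
      rw [hre, him]; ring
    linarith
  have e2 : (v.im * z.re - v.re * z.im = v.im * w.re - v.re * w.im) ↔
      l * (v.im * d.re - v.re * d.im) = 0 := by
    have : v.im * (w.re - z.re) - v.re * (w.im - z.im) = l * (v.im * d.re - v.re * d.im) := by
      rw [hre, him]; ring
    constructor <;> intro h' <;> linarith
  rw [e1]
  by_cases hl : l = 0
  · subst hl
    simp
  split_ifs with h1 h2 h3 h4 h5
  · rw [h2]; rw [show v.re * v.re + v.im * v.im = 1 by nlinarith]; ring
  · rw [h3]; simp only [Complex.neg_re, Complex.neg_im]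
    rw [show v.re * -v.re + v.im * -v.im = -1 by nlinarith]; ring
  · exfalso
    rw [e2] at h1
    have h1' : v.im * d.re - v.re * d.im = 0 := (mul_eq_zero.1 h1).resolve_left hl
    have hk : (v.re * d.re + v.im * d.im) ^ 2 = 1 := by nlinarith
    have hk2 : (v.re * d.re + v.im * d.im - 1) * (v.re * d.re + v.im * d.im + 1) = 0 := by
      linarith
    rcases mul_eq_zero.1 hk2 with h' | h'
    · apply h2
      apply Complex.ext
      · linear_combination v.re * h' + v.im * h1' - d.re * hv2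
      · linear_combination v.im * h' - v.re * h1' - d.im * hv2
    · apply h3
      apply Complex.ext
      · rw [Complex.neg_re]; linear_combination v.re * h' + v.im * h1' - d.re * hv2
      · rw [Complex.neg_im]; linear_combination v.im * h' - v.re * h1' - d.im * hv2
  · exfalso; apply h1; rw [e2, h4]; ring
  · exfalso; apply h1; rw [e2, h5]; simp only [Complex.neg_re, Complex.neg_im]; ring
  · rfl


/-! ### The sixth root of unity and the rotation by the small angle -/

noncomputable def ζ : ℂ := ⟨1 / 2, √3 / 2⟩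

lemma sq3 : (√3 : ℝ) * √3 = 3 := Real.mul_self_sqrt (by norm_num)

lemma ζ_sq : ζ ^ 2 = ζ - 1 := by
  apply Complex.ext
  · simp [ζ, pow_two]; nlinarith [sq3]
  · simp [ζ, pow_two]; ring

lemma ζ_cube : ζ ^ 3 = -1 := by
  have : ζ ^ 3 = ζ * ζ ^ 2 := by ring
  rw [this, ζ_sq, mul_sub, ← pow_two, ζ_sq]; ring

lemma ζ_ne : ζ ≠ 0 := by
  intro h
  have := ζ_cube
  rw [h] at this
  norm_num at this

noncomputable def eps (a b c : ℕ) : ℂ := ((b : ℂ) + a * ζ) / c

section Alg

variable {a b c : ℕ}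

/-- powers of `b + a ζ` -/
lemma pow_rep (a b : ℕ) (n : ℕ) : ∃ x y : ℤ, ((b : ℂ) + a * ζ) ^ n = x + y * ζ := by
  induction n with
  | zero => exact ⟨1, 0, by simp⟩
  | succ n ih =>
    obtain ⟨x, y, h⟩ := ih
    refine ⟨b * x - a * y, a * x + b * y + a * y, ?_⟩
    rw [pow_succ, h]
    push_cast
    linear_combination (a : ℂ) * y * ζ_sq

lemma indep {x y x' y' : ℤ} (h : (x : ℂ) + y * ζ = x' + y' * ζ) : x = x' ∧ y = y' := by
  have h1 : (y : ℝ) * (√3 / 2) = y' * (√3 / 2) := by
    have := congrArg Complex.im h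
    simp only [Complex.add_im, Complex.mul_im, Complex.intCast_im, Complex.intCast_re, ζ,
      zero_mul, add_zero, zero_add] at this
    linarith
  have h3 : (√3 / 2 : ℝ) ≠ 0 := by positivity
  have hy : (y : ℝ) = y' := mul_right_cancel₀ h3 h1
  have hy' : y = y' := by exact_mod_cast hy
  subst hy'
  refine ⟨?_, rfl⟩
  have := add_right_cancel h
  exact_mod_cast this

/-- `z^n ≡ (2b+a)^(n-1) z` modulo `c` -/
lemma pow_mod (a b c : ℕ) (hc2 : c ^ 2 = a ^ 2 + b ^ 2 + a * b) (n : ℕ) :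
    ∃ x y : ℤ, ((b : ℂ) + a * ζ) ^ (n + 1) = x + y * ζ ∧
      (c : ℤ) ∣ x - (2 * b + a) ^ n * b ∧ (c : ℤ) ∣ y - (2 * b + a) ^ n * a := by
  have hc2' : (c : ℤ) ^ 2 = a ^ 2 + b ^ 2 + a * b := by exact_mod_cast hc2
  induction n with
  | zero => exact ⟨b, a, by simp, by simp, by simp⟩
  | succ n ih =>
    obtain ⟨x, y, h, ⟨k, hk⟩, ⟨l, hl⟩⟩ := ih
    refine ⟨b * x - a * y, a * x + b * y + a * y, ?_, ?_, ?_⟩
    · rw [pow_succ, h]
      push_cast
      linear_combination (a : ℂ) * y * ζ_sq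
    · refine ⟨b * k - a * l - c * (2 * b + a) ^ n, ?_⟩
      have hx : x = (2 * b + a) ^ n * b + c * k := by linarith
      have hy : y = (2 * b + a) ^ n * a + c * l := by linarith
      rw [hx, hy, pow_succ]
      linear_combination (2 * (b : ℤ) + a) ^ n * hc2'
    · refine ⟨a * k + b * l + a * l, ?_⟩
      have hx : x = (2 * b + a) ^ n * b + c * k := by linarith
      have hy : y = (2 * b + a) ^ n * a + c * l := by linarith
      rw [hx, hy, pow_succ]
      ring

lemma cop_ca (hab : Nat.Coprime a b) (hc2 : c ^ 2 = a ^ 2 + b ^ 2 + a * b) : Nat.Coprime c a := by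
  rw [Nat.coprime_iff_gcd_eq_one] at *
  by_contra hne
  obtain ⟨p, hp, hpd⟩ := Nat.exists_prime_and_dvd hne
  have h1 : p ∣ c := hpd.trans (Nat.gcd_dvd_left _ _)
  have h2 : p ∣ a := hpd.trans (Nat.gcd_dvd_right _ _)
  have h3 : p ∣ b ^ 2 := by
    have e : b ^ 2 + a * (a + b) = c ^ 2 := by rw [hc2]; ring
    have : p ∣ b ^ 2 + a * (a + b) := by rw [e]; exact dvd_pow h1 (by norm_num)
    exact (Nat.dvd_add_left (h2.mul_right _)).1 this
  have h4 := hp.dvd_of_dvd_pow h3
  have := Nat.dvd_gcd h2 h4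
  rw [hab] at this
  exact hp.one_lt.ne' (Nat.dvd_one.1 this)

lemma cop_cb (hab : Nat.Coprime a b) (hc2 : c ^ 2 = a ^ 2 + b ^ 2 + a * b) : Nat.Coprime c b :=
  cop_ca hab.symm (by rw [hc2]; ring)

lemma cop_c3 (hab : Nat.Coprime a b) (hc2 : c ^ 2 = a ^ 2 + b ^ 2 + a * b) : Nat.Coprime c 3 := by
  rw [Nat.coprime_comm, Nat.Prime.coprime_iff_not_dvd (by norm_num)]
  rintro ⟨k, rfl⟩
  -- `a ≡ b mod 3` and then `9 ∣ 3 b²`
  have h1 : (a ^ 2 + b ^ 2 + a * b) % 9 = 0 := by
    rw [← hc2]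
    have : (3 * k) ^ 2 = 9 * k ^ 2 := by ring
    rw [this]; simp
  have h2 : a % 3 = 0 ∧ b % 3 = 0 := by
    have key : ∀ x y : ZMod 9, x ^ 2 + y ^ 2 + x * y = 0 → (3 * x = 0 ∧ 3 * y = 0) := by decide
    have h1' : ((a : ZMod 9)) ^ 2 + (b : ZMod 9) ^ 2 + a * b = 0 := by
      have : ((a ^ 2 + b ^ 2 + a * b : ℕ) : ZMod 9) = 0 := by
        rw [ZMod.natCast_eq_zero_iff]; exact Nat.dvd_of_mod_eq_zero h1
      push_cast at this; exact this
    obtain ⟨k1, k2⟩ := key _ _ h1'
    have k1' : ((3 * a : ℕ) : ZMod 9) = 0 := by push_cast; exact k1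
    have k2' : ((3 * b : ℕ) : ZMod 9) = 0 := by push_cast; exact k2
    rw [ZMod.natCast_eq_zero_iff] at k1' k2'
    omega
  have h3 : (3 : ℕ) ∣ Nat.gcd a b := Nat.dvd_gcd (Nat.dvd_of_mod_eq_zero h2.1)
    (Nat.dvd_of_mod_eq_zero h2.2)
  rw [Nat.coprime_iff_gcd_eq_one] at hab
  rw [hab] at h3
  norm_num at h3

lemma cop_c_trace (hab : Nat.Coprime a b) (hc2 : c ^ 2 = a ^ 2 + b ^ 2 + a * b) :
    Nat.Coprime c (2 * b + a) := by
  rw [Nat.coprime_iff_gcd_eq_one]
  by_contra hne
  obtain ⟨p, hp, hpd⟩ := Nat.exists_prime_and_dvd hne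
  have h1 : p ∣ c := hpd.trans (Nat.gcd_dvd_left _ _)
  have h2 : p ∣ 2 * b + a := hpd.trans (Nat.gcd_dvd_right _ _)
  have h3 : p ∣ 3 * a ^ 2 := by
    have e : (2 * b + a) ^ 2 + 3 * a ^ 2 = 4 * c ^ 2 := by rw [hc2]; ring
    have h4 : p ∣ (2 * b + a) ^ 2 + 3 * a ^ 2 := by
      rw [e]; exact (dvd_pow h1 (by norm_num)).mul_left _
    exact (Nat.dvd_add_right (dvd_pow h2 (by norm_num))).1 h4
  rcases (Nat.Prime.dvd_mul hp).1 h3 with h4 | h4
  · have hp3 : p = 3 := (Nat.prime_dvd_prime_iff_eq hp (by norm_num)).1 h4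
    subst hp3
    have := cop_c3 hab hc2
    rw [Nat.coprime_comm, Nat.Prime.coprime_iff_not_dvd (by norm_num)] at this
    exact this h1
  · have h5 := hp.dvd_of_dvd_pow h4
    have := Nat.dvd_gcd h1 h5
    rw [Nat.coprime_iff_gcd_eq_one.1 (cop_ca hab hc2)] at this
    exact hp.one_lt.ne' (Nat.dvd_one.1 this)

lemma zpow_rep (k : ℕ) : ∃ x y : ℤ, ζ ^ k = x + y * ζ := by
  induction k with
  | zero => exact ⟨1, 0, by simp⟩
  | succ k ih =>
    obtain ⟨x, y, h⟩ := ih
    refine ⟨-y, x + y, ?_⟩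
    rw [pow_succ, h]
    push_cast
    linear_combination (y : ℂ) * ζ_sq

/-- no positive power of `b + a ζ` is `c^n` times a power of `ζ` -/
lemma no_relation (hb : 0 < b) (hab : Nat.Coprime a b)
    (hc2 : c ^ 2 = a ^ 2 + b ^ 2 + a * b) (ha : 0 < a) (n k : ℕ)
    (h : ((b : ℂ) + a * ζ) ^ (n + 1) = (c : ℂ) ^ (n + 1) * ζ ^ k) : False := by
  obtain ⟨x, y, h1, -, h3⟩ := pow_mod a b c hc2 n
  obtain ⟨u, v, h4⟩ := zpow_rep k
  rw [h1, h4] at h
  have h5 : (x : ℂ) + y * ζ = ((c ^ (n + 1) * u : ℤ) : ℂ) + ((c ^ (n + 1) * v : ℤ) : ℂ) * ζ := by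
    rw [h]; push_cast; ring
  obtain ⟨-, h6⟩ := indep h5
  have h7 : (c : ℤ) ∣ y := by rw [h6]; exact (dvd_pow_self _ (by omega)).mul_right _
  have h8 : (c : ℤ) ∣ (2 * b + a) ^ n * a := by
    have := dvd_sub h7 h3
    simpa using this
  have h9 : c ∣ (2 * b + a) ^ n * a := by exact_mod_cast h8
  have h10 : c ∣ a := ((cop_c_trace hab hc2).pow_right n).dvd_of_dvd_mul_left h9
  have h11 : c = 1 := by
    have := Nat.dvd_gcd dvd_rfl h10
    rw [Nat.coprime_iff_gcd_eq_one.1 (cop_ca hab hc2)] at this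
    exact Nat.dvd_one.1 this
  subst h11
  nlinarith

end Alg


/-! ### The weight of directions -/

section Weight

variable {a b c : ℕ}

lemma ζ_re : ζ.re = 1 / 2 := rfl
lemma ζ_im : ζ.im = √3 / 2 := rfl

lemma norm_ζ : ‖ζ‖ = 1 := by
  have h : ‖ζ‖ ^ 3 = 1 := by rw [← norm_pow, ζ_cube]; simp
  exact (pow_eq_one_iff_of_nonneg (norm_nonneg _) (by norm_num)).1 h

lemma eps_mul_conj (hc : 0 < c) (hc2 : c ^ 2 = a ^ 2 + b ^ 2 + a * b) :
    Complex.normSq (eps a b c) = 1 := by
  have hc' : (c : ℝ) ≠ 0 := by positivity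
  have hc2' : (c : ℝ) ^ 2 = a ^ 2 + b ^ 2 + a * b := by exact_mod_cast hc2
  unfold eps
  rw [map_div₀, Complex.normSq_natCast, Complex.normSq_apply]
  simp only [Complex.add_re, Complex.mul_re, Complex.natCast_re, Complex.natCast_im, ζ_re, ζ_im,
    Complex.add_im, Complex.mul_im, zero_mul, sub_zero, zero_add, add_zero]
  rw [div_eq_one_iff_eq (by positivity)]
  nlinarith [sq3]

lemma norm_eps (hc : 0 < c) (hc2 : c ^ 2 = a ^ 2 + b ^ 2 + a * b) : ‖eps a b c‖ = 1 := by
  have h := Complex.normSq_eq_norm_sq (eps a b c)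
  rw [eps_mul_conj hc hc2] at h
  exact (pow_eq_one_iff_of_nonneg (norm_nonneg _) (by norm_num)).1 h.symm

lemma eps_ne (hc : 0 < c) (hc2 : c ^ 2 = a ^ 2 + b ^ 2 + a * b) : eps a b c ≠ 0 := by
  intro h
  have := norm_eps hc hc2
  rw [h] at this
  simp at this

/-- `ζ^m ε^n = 1` only if `n = 0` and `m` is even -/
lemma relation (ha : 0 < a) (hb : 0 < b) (hc : 0 < c) (hab : Nat.Coprime a b)
    (hc2 : c ^ 2 = a ^ 2 + b ^ 2 + a * b) (m n : ℤ) (h : ζ ^ m * eps a b c ^ n = 1) :
    n = 0 ∧ Even m := by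
  have hc' : (c : ℂ) ≠ 0 := by exact_mod_cast hc.ne'
  -- no relation with positive exponent
  have hpos : ∀ (k : ℕ) (m : ℤ), eps a b c ^ (k + 1) = ζ ^ m → False := by
    intro k m h
    have h6 : ζ ^ (6 : ℤ) = 1 := by
      have : ζ ^ (6 : ℤ) = (ζ ^ 3) ^ 2 := by norm_cast; ring
      rw [this, ζ_cube]; norm_num
    obtain ⟨j, hj⟩ : ∃ j : ℕ, ζ ^ m = ζ ^ j := by
      refine ⟨(m % 6).toNat, ?_⟩
      have e1 : ((m % 6).toNat : ℤ) = m % 6 := Int.toNat_of_nonneg (Int.emod_nonneg _ (by norm_num))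
      rw [← zpow_natCast, e1]
      conv_lhs => rw [← Int.emod_add_mul_ediv m 6, zpow_add₀ ζ_ne, zpow_mul, h6, one_zpow, mul_one]
    rw [hj] at h
    apply no_relation hb hab hc2 ha k j
    unfold eps at h
    rw [div_pow, div_eq_iff (pow_ne_zero _ hc')] at h
    rw [h]; ring
  have hn : n = 0 := by
    by_contra hn
    rcases lt_or_gt_of_ne hn with h1 | h1
    · obtain ⟨k, hk⟩ : ∃ k : ℕ, n = -((k + 1 : ℕ) : ℤ) := ⟨(-n - 1).toNat, by omega⟩
      apply hpos k m
      rw [hk, zpow_neg, zpow_natCast] at h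
      exact (mul_inv_eq_one₀ (pow_ne_zero _ (eps_ne hc hc2))).1 h |>.symm
    · obtain ⟨k, hk⟩ : ∃ k : ℕ, n = ((k + 1 : ℕ) : ℤ) := ⟨(n - 1).toNat, by omega⟩
      apply hpos k (-m)
      rw [hk, zpow_natCast] at h
      rw [zpow_neg]
      exact eq_inv_of_mul_eq_one_right h
  refine ⟨hn, ?_⟩
  rw [hn, zpow_zero, mul_one] at h
  by_contra hodd
  rw [Int.not_even_iff_odd] at hodd
  have h3 : (ζ ^ m) ^ 3 = -1 := by
    have : (ζ ^ m) ^ 3 = (ζ ^ 3) ^ m := by
      rw [← zpow_natCast, ← zpow_natCast, ← zpow_mul, ← zpow_mul, mul_comm]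
    rw [this, ζ_cube, hodd.neg_one_zpow]
  rw [h] at h3
  norm_num at h3

open Classical in
/-- the weight: `f (g ζ^m ε^n) = (-1)^m t^n`, and `0` on the other directions -/
noncomputable def wt {R : Type} [CommRing R] (t : Rˣ) (g e : ℂ) (d : ℂ) : R :=
  if h : ∃ mn : ℤ × ℤ, d = g * ζ ^ mn.1 * e ^ mn.2 then
    (((-1 : Rˣ) ^ h.choose.1 * t ^ h.choose.2 : Rˣ) : R) else 0

lemma wt_of {R : Type} [CommRing R] (t : Rˣ) (ha : 0 < a) (hb : 0 < b) (hc : 0 < c)
    (hab : Nat.Coprime a b) (hc2 : c ^ 2 = a ^ 2 + b ^ 2 + a * b) (g : ℂ) (hg : g ≠ 0) (m n : ℤ) :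
    wt t g (eps a b c) (g * ζ ^ m * eps a b c ^ n) = (((-1 : Rˣ) ^ m * t ^ n : Rˣ) : R) := by
  have h : ∃ mn : ℤ × ℤ, g * ζ ^ m * eps a b c ^ n = g * ζ ^ mn.1 * eps a b c ^ mn.2 :=
    ⟨(m, n), rfl⟩
  unfold wt
  rw [dif_pos h]
  have hs := h.choose_spec
  obtain ⟨m', hm'⟩ : ∃ m', m' = h.choose.1 := ⟨_, rfl⟩
  obtain ⟨n', hn'⟩ : ∃ n', n' = h.choose.2 := ⟨_, rfl⟩
  rw [← hm', ← hn'] at hs ⊢
  clear hm' hn' h
  have he := eps_ne hc hc2
  have h1 : ζ ^ (m - m') * eps a b c ^ (n - n') = 1 := by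
    rw [zpow_sub₀ ζ_ne, zpow_sub₀ he]
    have hz := zpow_ne_zero m' ζ_ne
    have hz2 := zpow_ne_zero n' he
    field_simp
    rw [mul_assoc, mul_assoc] at hs
    exact mul_left_cancel₀ hg hs
  obtain ⟨h2, h3⟩ := relation ha hb hc hab hc2 _ _ h1
  have h4 : n' = n := by omega
  rw [h4]
  have h5 : ((-1 : Rˣ)) ^ m' = (-1) ^ m := by
    have : m = m' + (m - m') := by ring
    rw [this, zpow_add, h3.neg_one_zpow, mul_one]
  rw [h5]

/-- equivariance of the weight -/
lemma wt_mul {R : Type} [CommRing R] (t : Rˣ) (ha : 0 < a) (hb : 0 < b) (hc : 0 < c)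
    (hab : Nat.Coprime a b) (hc2 : c ^ 2 = a ^ 2 + b ^ 2 + a * b) (g : ℂ) (hg : g ≠ 0) (d : ℂ)
    (i j : ℤ) :
    wt t g (eps a b c) (d * ζ ^ i * eps a b c ^ j) =
      (((-1 : Rˣ) ^ i * t ^ j : Rˣ) : R) * wt t g (eps a b c) d := by
  have he := eps_ne hc hc2
  by_cases h : ∃ mn : ℤ × ℤ, d = g * ζ ^ mn.1 * eps a b c ^ mn.2
  · obtain ⟨⟨m, n⟩, rfl⟩ := h
    have e1 : g * ζ ^ m * eps a b c ^ n * ζ ^ i * eps a b c ^ j =
        g * ζ ^ (m + i) * eps a b c ^ (n + j) := by
      rw [zpow_add₀ ζ_ne, zpow_add₀ he]; ring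
    simp only
    rw [e1, wt_of t ha hb hc hab hc2 g hg, wt_of t ha hb hc hab hc2 g hg, ← Units.val_mul]
    congr 1
    rw [zpow_add, zpow_add]
    exact mul_mul_mul_comm _ _ _ _ |>.trans (mul_comm _ _)
  · have h' : ¬ ∃ mn : ℤ × ℤ, d * ζ ^ i * eps a b c ^ j = g * ζ ^ mn.1 * eps a b c ^ mn.2 := by
      rintro ⟨⟨m, n⟩, hmn⟩
      apply h
      refine ⟨(m - i, n - j), ?_⟩
      simp only at hmn ⊢
      rw [zpow_sub₀ ζ_ne, zpow_sub₀ he]
      have hz := zpow_ne_zero i ζ_ne
      have hz2 := zpow_ne_zero j he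
      field_simp
      linear_combination hmn
    unfold wt
    rw [dif_neg h, dif_neg h', mul_zero]

end Weight


/-! ### Tiles and the big triangle -/

section Final

variable {a b c : ℕ}

/-- edges of a tile: up to orientation the three directions are determined by the first -/
lemma tile_dirs (ha : 0 < a) (hb : 0 < b) (hc : 0 < c)
    (hc2 : c ^ 2 = a ^ 2 + b ^ 2 + a * b) (A B C : ℂ)
    (h1 : dist B C = a) (h2 : dist C A = b) (h3 : dist A B = c) :
    ∃ d : ℂ, ‖d‖ = 1 ∧ ∃ j : ℤ, (j = 1 ∨ j = -1) ∧ B - A = (c : ℝ) * d ∧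
      C - B = (a : ℝ) * (d * ζ ^ (2 * j) * eps a b c ^ j) ∧
      A - C = (b : ℝ) * (d * ζ ^ (3 : ℤ) * eps a b c ^ j) := by
  have hc' : (c : ℝ) ≠ 0 := by positivity
  have ha' : (a : ℝ) ≠ 0 := by positivity
  have hb' : (b : ℝ) ≠ 0 := by positivity
  have hcC : (c : ℂ) ≠ 0 := by exact_mod_cast hc.ne'
  have hc2' : (c : ℝ) ^ 2 = a ^ 2 + b ^ 2 + a * b := by exact_mod_cast hc2
  have hc2C : (c : ℂ) ^ 2 = a ^ 2 + b ^ 2 + a * b := by exact_mod_cast hc2
  have hAB : ‖B - A‖ = c := by rw [← dist_eq_norm, dist_comm]; exact h3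
  obtain ⟨d, hd⟩ : ∃ d : ℂ, d = (B - A) / c := ⟨_, rfl⟩
  have hdn : ‖d‖ = 1 := by
    rw [hd, norm_div, hAB, Complex.norm_natCast, div_self hc']
  have hd0 : d ≠ 0 := by intro h; rw [h] at hdn; simp at hdn
  have hBA : B - A = c * d := by rw [hd]; field_simp
  obtain ⟨q, hq⟩ : ∃ q : ℂ, q = (C - A) / d := ⟨_, rfl⟩
  have hCA : C - A = q * d := by rw [hq]; field_simp
  have hqn : Complex.normSq q = (b : ℝ) ^ 2 := by
    rw [Complex.normSq_eq_norm_sq, hq, norm_div, hdn, div_one, ← dist_eq_norm, h2]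
  have hqc : Complex.normSq (q - c) = (a : ℝ) ^ 2 := by
    have : q - c = (C - B) / d := by
      rw [eq_div_iff hd0, sub_mul, ← hCA, ← hBA]; ring
    rw [Complex.normSq_eq_norm_sq, this, norm_div, hdn, div_one, ← dist_eq_norm, dist_comm, h1]
  rw [Complex.normSq_apply] at hqn hqc
  simp only [Complex.sub_re, Complex.natCast_re, Complex.sub_im, Complex.natCast_im,
    sub_zero] at hqc
  have hre : q.re = (2 * b ^ 2 + a * b) / (2 * c) := by
    field_simp
    nlinarith
  have him : (q.im - √3 * a * b / (2 * c)) * (q.im + √3 * a * b / (2 * c)) = 0 := by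
    have e1 : q.im * q.im = (√3 * a * b / (2 * c)) * (√3 * a * b / (2 * c)) := by
      have e2 : (√3 * a * b / (2 * c)) * (√3 * a * b / (2 * c)) =
          (√3 * √3) * a ^ 2 * b ^ 2 / (4 * c ^ 2) := by
        field_simp; ring
      have e3 : q.im * q.im = b ^ 2 - q.re * q.re := by linarith
      rw [e2, e3, hre, sq3]
      field_simp
      nlinarith
    linear_combination e1
  have hζ2 := ζ_sq
  have heps := eps_ne (a := a) (b := b) hc hc2
  have hre_eps : (eps a b c).re = (b + a / 2) / c := by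
    unfold eps
    rw [Complex.div_natCast_re]
    simp [ζ]; ring
  have him_eps : (eps a b c).im = (a * (√3 / 2)) / c := by
    unfold eps
    rw [Complex.div_natCast_im]
    simp [ζ]
  have hζ3 : ζ ^ (3 : ℤ) = -1 := by
    have : ζ ^ (3 : ℤ) = ζ ^ 3 := by norm_cast
    rw [this, ζ_cube]
  refine ⟨d, hdn, ?_⟩
  rcases mul_eq_zero.1 him with h | h
  · -- positive orientation
    have hq' : q = b * eps a b c := by
      apply Complex.ext
      · rw [Complex.mul_re, hre, hre_eps]; simp; field_simp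
      · rw [Complex.mul_im, him_eps]; simp
        have : q.im = √3 * a * b / (2 * c) := by linarith
        rw [this]; field_simp
    refine ⟨1, Or.inl rfl, by rw [hBA]; push_cast; rfl, ?_, ?_⟩
    · have e1 : C - B = (q - c) * d := by rw [sub_mul, ← hCA, ← hBA]; ring
      have e2 : ζ ^ (2 * 1 : ℤ) = ζ - 1 := by
        have : ζ ^ (2 * 1 : ℤ) = ζ ^ 2 := by norm_cast
        rw [this, ζ_sq]
      rw [e1, hq', e2, zpow_one]
      unfold eps
      push_cast
      field_simp
      linear_combination (-(a : ℂ) ^ 2) * hζ2 - hc2C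
    · have e1 : A - C = -(q * d) := by rw [← hCA]; ring
      rw [e1, hq', hζ3, zpow_one]
      push_cast
      ring
  · -- negative orientation
    have hconj : (eps a b c) ^ (-1 : ℤ) = star (eps a b c) := by
      rw [zpow_neg_one, Complex.inv_def, eps_mul_conj hc hc2]
      simp
    have hq' : q = b * star (eps a b c) := by
      apply Complex.ext
      · rw [Complex.mul_re, hre]; simp [hre_eps]; field_simp
      · rw [Complex.mul_im]; simp [him_eps]
        have : q.im = -(√3 * a * b / (2 * c)) := by linarith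
        rw [this]; field_simp
    refine ⟨-1, Or.inr rfl, by rw [hBA]; push_cast; rfl, ?_, ?_⟩
    · have e1 : C - B = (q - c) * d := by rw [sub_mul, ← hCA, ← hBA]; ring
      have e2 : ζ ^ (2 * (-1) : ℤ) = -ζ := by
        have h1 : ζ ^ (2 * (-1) : ℤ) * ζ ^ (2 : ℤ) = 1 := by
          rw [← zpow_add₀ ζ_ne]; norm_num
        have h2 : (-ζ) * ζ ^ (2 : ℤ) = 1 := by
          have : ζ ^ (2 : ℤ) = ζ ^ 2 := by norm_cast
          rw [this]
          have := ζ_cube
          linear_combination -this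
        have h3 : ζ ^ (2 : ℤ) ≠ 0 := zpow_ne_zero _ ζ_ne
        exact mul_right_cancel₀ h3 (h1.trans h2.symm)
      have hstar : star (eps a b c) = ((b : ℂ) + a * (1 - ζ)) / c := by
        unfold eps
        have hsz : star ζ = 1 - ζ := by
          apply Complex.ext
          · simp [ζ]; norm_num
          · simp [ζ]
        rw [star_div₀, star_add, star_mul', hsz]
        simp
      rw [e1, hq', e2, hconj, hstar]
      push_cast
      field_simp
      linear_combination (-(a : ℂ) ^ 2) * hζ2 - hc2C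
    · have e1 : A - C = -(q * d) := by rw [← hCA]; ring
      rw [e1, hq', hζ3, hconj]
      push_cast
      ring

lemma big_dirs (X : ℝ) (hX : 0 < X) (P Q S : ℂ)
    (h1 : dist P Q = X) (h2 : dist Q S = X) (h3 : dist S P = X) :
    ∃ d : ℂ, ‖d‖ = 1 ∧ ∃ j : ℤ, (j = 1 ∨ j = -1) ∧ Q - P = X * d ∧
      S - Q = X * (d * ζ ^ (2 * j)) ∧ P - S = X * (d * ζ ^ (4 * j)) := by
  have hXC : (X : ℂ) ≠ 0 := by exact_mod_cast hX.ne'
  obtain ⟨d, hd⟩ : ∃ d : ℂ, d = (Q - P) / X := ⟨_, rfl⟩
  have hQP : Q - P = X * d := by rw [hd]; field_simp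
  have hdn : ‖d‖ = 1 := by
    rw [hd, norm_div, ← dist_eq_norm, dist_comm, h1, Complex.norm_real, Real.norm_eq_abs,
      abs_of_pos hX, div_self hX.ne']
  have hd0 : d ≠ 0 := by intro h; rw [h] at hdn; simp at hdn
  obtain ⟨q, hq⟩ : ∃ q : ℂ, q = (S - P) / (X * d) := ⟨_, rfl⟩
  have hXd : (X : ℂ) * d ≠ 0 := mul_ne_zero hXC hd0
  have hSP : S - P = q * (X * d) := by rw [hq]; field_simp
  have hnXd : ‖(X : ℂ) * d‖ = X := by
    rw [norm_mul, hdn, mul_one, Complex.norm_real, Real.norm_eq_abs, abs_of_pos hX]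
  have hqn : Complex.normSq q = 1 := by
    rw [Complex.normSq_eq_norm_sq, hq, norm_div, hnXd, ← dist_eq_norm, h3, div_self hX.ne']
    norm_num
  have hqc : Complex.normSq (q - 1) = 1 := by
    have : q - 1 = (S - Q) / (X * d) := by
      rw [eq_div_iff hXd, sub_mul, ← hSP, one_mul, ← hQP]; ring
    rw [Complex.normSq_eq_norm_sq, this, norm_div, hnXd, ← dist_eq_norm, dist_comm, h2,
      div_self hX.ne']
    norm_num
  rw [Complex.normSq_apply] at hqn hqc
  simp only [Complex.sub_re, Complex.one_re, Complex.sub_im, Complex.one_im, sub_zero] at hqc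
  have hre : q.re = 1 / 2 := by nlinarith
  have him : (q.im - √3 / 2) * (q.im + √3 / 2) = 0 := by
    rw [hre] at hqn
    nlinarith [sq3]
  have z2 : ζ ^ (2 : ℤ) = ζ - 1 := by
    have : ζ ^ (2 : ℤ) = ζ ^ 2 := by norm_cast
    rw [this, ζ_sq]
  have z4 : ζ ^ (4 : ℤ) = -ζ := by
    have : ζ ^ (4 : ℤ) = ζ ^ 3 * ζ := by norm_cast
    rw [this, ζ_cube]; ring
  have hmul : ζ * (1 - ζ) = 1 := by linear_combination -ζ_sq
  have zm2 : ζ ^ (-2 : ℤ) = -ζ := by
    rw [zpow_neg, z2]
    exact inv_eq_of_mul_eq_one_left (by linear_combination hmul)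
  have zm4 : ζ ^ (-4 : ℤ) = ζ - 1 := by
    rw [zpow_neg, z4]
    exact inv_eq_of_mul_eq_one_left (by linear_combination hmul)
  refine ⟨d, hdn, ?_⟩
  rcases mul_eq_zero.1 him with h | h
  · have hq' : q = ζ := by
      apply Complex.ext
      · rw [hre]; rfl
      · have : q.im = √3 / 2 := by linarith
        rw [this]; rfl
    refine ⟨1, Or.inl rfl, hQP, ?_, ?_⟩
    · rw [show (2 * 1 : ℤ) = 2 by norm_num, z2]
      have : S - Q = (q - 1) * (X * d) := by rw [sub_mul, ← hSP, one_mul, ← hQP]; ring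
      rw [this, hq']; ring
    · rw [show (4 * 1 : ℤ) = 4 by norm_num, z4]
      have : P - S = -(q * (X * d)) := by rw [← hSP]; ring
      rw [this, hq']; ring
  · have hq' : q = 1 - ζ := by
      apply Complex.ext
      · rw [hre]; simp [ζ]; norm_num
      · have : q.im = -(√3 / 2) := by linarith
        rw [this]; simp [ζ]
    refine ⟨-1, Or.inr rfl, hQP, ?_, ?_⟩
    · rw [show (2 * (-1) : ℤ) = -2 by norm_num, zm2]
      have : S - Q = (q - 1) * (X * d) := by rw [sub_mul, ← hSP, one_mul, ← hQP]; ring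
      rw [this, hq']; ring
    · rw [show (4 * (-1) : ℤ) = -4 by norm_num, zm4]
      have : P - S = -(q * (X * d)) := by rw [← hSP]; ring
      rw [this, hq']; ring

end Final


section Main

open Classical in
/-- `δ d v = 1` if `d = v`, `-1` if `d = -v`, `0` otherwise -/
noncomputable def del (d v : ℂ) : ℤ := if d = v then 1 else if d = -v then -1 else 0

lemma vd_del (v z w d : ℂ) (l : ℝ) (hv : ‖v‖ = 1) (hd : ‖d‖ = 1) (h : w - z = l * d) :
    vd v z w = l * (del d v : ℝ) := by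
  rw [vd_eq v z w d l hv hd h]
  unfold del
  split_ifs <;> simp

open Classical in
noncomputable def nh (d : ℂ) : ℂ := if 0 < d.im ∨ (d.im = 0 ∧ 0 < d.re) then d else -d

lemma half_or (d : ℂ) (hd : d ≠ 0) : (0 < d.im ∨ (d.im = 0 ∧ 0 < d.re)) ∨
    (0 < (-d).im ∨ ((-d).im = 0 ∧ 0 < (-d).re)) := by
  simp only [Complex.neg_im, Complex.neg_re]
  rcases lt_trichotomy d.im 0 with h | h | h
  · right; left; linarith
  · rcases lt_trichotomy d.re 0 with h' | h' | h'
    · right; right; constructor <;> linarith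
    · exact absurd (Complex.ext h' h) hd
    · left; right; exact ⟨h, h'⟩
  · left; left; exact h

lemma half_not (d : ℂ) (h1 : 0 < d.im ∨ (d.im = 0 ∧ 0 < d.re))
    (h2 : 0 < (-d).im ∨ ((-d).im = 0 ∧ 0 < (-d).re)) : False := by
  simp only [Complex.neg_im, Complex.neg_re] at h2
  rcases h1 with h1 | h1 <;> rcases h2 with h2 | h2
  · linarith
  · linarith [h2.1]
  · linarith [h1.1]
  · linarith [h1.2, h2.2]

lemma nh_half (d : ℂ) (hd : d ≠ 0) : 0 < (nh d).im ∨ ((nh d).im = 0 ∧ 0 < (nh d).re) := by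
  unfold nh
  split_ifs with h
  · exact h
  · exact (half_or d hd).resolve_left h

lemma wsum {R : Type} [CommRing R] (f : ℂ → R) (hodd : ∀ d, f (-d) = -f d) (D : Finset ℂ)
    (hD : ∀ v ∈ D, 0 < v.im ∨ (v.im = 0 ∧ 0 < v.re)) (d : ℂ) (hd : d ≠ 0) (hdD : nh d ∈ D) :
    ∑ v ∈ D, f v * ((del d v : ℤ) : R) = f d := by
  have hneg : d ≠ -d := by
    intro h
    apply hd
    have : (2 : ℂ) * d = 0 := by linear_combination h
    exact (mul_eq_zero.1 this).resolve_left (by norm_num)
  rw [Finset.sum_eq_single (nh d)]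
  · by_cases h : 0 < d.im ∨ (d.im = 0 ∧ 0 < d.re)
    · have e1 : nh d = d := by unfold nh; rw [if_pos h]
      have e2 : del d d = 1 := by unfold del; rw [if_pos rfl]
      rw [e1, e2]; simp
    · have e1 : nh d = -d := by unfold nh; rw [if_neg h]
      have e2 : del d (-d) = -1 := by
        unfold del; rw [if_neg hneg, if_pos (neg_neg d).symm]
      rw [e1, e2, hodd]; simp
  · intro v hv hne
    have h1 : d ≠ v := by
      rintro rfl
      apply hne
      unfold nh
      rw [if_pos (hD d hv)]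
    have h2 : d ≠ -v := by
      intro h
      apply hne
      have hv' : v = -d := by rw [h, neg_neg]
      unfold nh
      rw [if_neg]
      · exact hv'
      · intro h3
        have h4 := hD v hv
        rw [hv'] at h4
        exact half_not d h3 h4
    unfold del
    rw [if_neg h1, if_neg h2]
    simp
  · intro h; exact absurd hdD h

lemma sign_cast (s : SignType) : (s : ℝ) = ((s : ℤ) : ℝ) := by
  cases s <;> simp

lemma exists_unit (a b c : ℕ) (hab : Nat.Coprime a b) (hc2 : c ^ 2 = a ^ 2 + b ^ 2 + a * b) :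
    ∃ t : (ZMod (3 * (a * b)))ˣ, t ^ 2 = 1 ∧
      ((c : ZMod (3 * (a * b))) + ((a : ZMod (3 * (a * b))) - b) * t = 0) := by
  have hcop : Nat.Coprime c (3 * (a * b)) :=
    (cop_c3 hab hc2).mul_right ((cop_ca hab hc2).mul_right (cop_cb hab hc2))
  obtain ⟨uc, huc⟩ : ∃ u : (ZMod (3 * (a * b)))ˣ, (u : ZMod (3 * (a * b))) = c :=
    ⟨ZMod.unitOfCoprime c hcop, ZMod.coe_unitOfCoprime c hcop⟩
  have hsq : (c : ZMod (3 * (a * b))) ^ 2 = ((b : ZMod (3 * (a * b))) - a) ^ 2 := by
    have h0 : ((3 * (a * b) : ℕ) : ZMod (3 * (a * b))) = 0 := ZMod.natCast_self _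
    have h1 : ((c ^ 2 : ℕ) : ZMod (3 * (a * b))) = ((a ^ 2 + b ^ 2 + a * b : ℕ) : ZMod (3 * (a * b))) := by
      rw [hc2]
    push_cast at h0 h1
    linear_combination h1 + h0
  have hd : IsUnit ((b : ZMod (3 * (a * b))) - a) := by
    have h2 : IsUnit (((b : ZMod (3 * (a * b))) - a) ^ 2) := by
      rw [← hsq, ← huc]; exact (uc.isUnit).pow 2
    exact (isUnit_pow_iff (by norm_num)).1 h2
  obtain ⟨ud, hud⟩ := hd
  refine ⟨uc * ud⁻¹, ?_, ?_⟩
  · have h3 : uc ^ 2 = ud ^ 2 := by
      apply Units.ext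
      push_cast
      rw [huc, hud, hsq]
    rw [mul_pow, h3, inv_pow, mul_inv_cancel]
  · have h4 : ((b : ZMod (3 * (a * b))) - a) * ((uc * ud⁻¹ : (ZMod (3 * (a * b)))ˣ) : ZMod (3 * (a * b))) = c := by
      rw [← hud, ← huc, ← Units.val_mul]
      congr 1
      exact (mul_left_comm ud uc ud⁻¹).trans (by rw [mul_inv_cancel, mul_one])
    linear_combination -h4

/-- **Answer to MP_9dc182_co, Q1 (hence Q2): yes.** Let `a, b, c` be positive integers with
`gcd(a,b) = 1` and `c² = a² + b² + ab`. If the equilateral triangle of side `X > 0` is the union of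
finitely many triangles congruent to the triangle `(a,b,c)` with pairwise disjoint interiors, then
`X` is a positive integer multiple of `ab`. -/
theorem result (a b c : ℕ) (ha : 0 < a) (hb : 0 < b) (hc : 0 < c) (hab : Nat.gcd a b = 1)
    (hc2 : c ^ 2 = a ^ 2 + b ^ 2 + a * b) (X : ℝ) (hX : 0 < X)
    (hE : Equiconstructible a b c X) : ∃ m : ℕ, 0 < m ∧ X = m * ((a : ℝ) * b) := by
  classical
  have hab' : Nat.Coprime a b := hab
  obtain ⟨P, Q, S, hPQ, hQS, hSP, N, A, B, C, hdist, hT⟩ := hE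
  obtain ⟨g, hg, k, hk, hg1, hg2, hg3⟩ := big_dirs X hX P Q S hPQ hQS hSP
  choose d hd j hj h1 h2 h3 using fun i =>
    tile_dirs ha hb hc hc2 (A i) (B i) (C i) (hdist i).1 (hdist i).2.1 (hdist i).2.2
  have hg0 : g ≠ 0 := by intro h; rw [h] at hg; simp at hg
  have hζn : ∀ m : ℤ, ‖ζ ^ m‖ = 1 := by intro m; rw [norm_zpow, norm_ζ, one_zpow]
  have hen : ∀ m : ℤ, ‖eps a b c ^ m‖ = 1 := by
    intro m; rw [norm_zpow, norm_eps hc hc2, one_zpow]
  -- directions
  obtain ⟨d2, hd2⟩ : ∃ d2 : Fin N → ℂ, d2 = fun i => d i * ζ ^ (2 * j i) * eps a b c ^ j i :=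
    ⟨_, rfl⟩
  obtain ⟨d3, hd3⟩ : ∃ d3 : Fin N → ℂ, d3 = fun i => d i * ζ ^ (3 : ℤ) * eps a b c ^ j i :=
    ⟨_, rfl⟩
  have n2 : ∀ i, ‖d2 i‖ = 1 := by
    intro i; rw [hd2]; simp only [norm_mul, hd i, hζn, hen, mul_one]
  have n3 : ∀ i, ‖d3 i‖ = 1 := by
    intro i; rw [hd3]; simp only [norm_mul, hd i, hζn, hen, mul_one]
  obtain ⟨g2, hg2'⟩ : ∃ g2, g2 = g * ζ ^ (2 * k) := ⟨_, rfl⟩
  obtain ⟨g3, hg3'⟩ : ∃ g3, g3 = g * ζ ^ (4 * k) := ⟨_, rfl⟩
  have ng2 : ‖g2‖ = 1 := by rw [hg2', norm_mul, hg, hζn, mul_one]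
  have ng3 : ‖g3‖ = 1 := by rw [hg3', norm_mul, hg, hζn, mul_one]
  -- signs
  obtain ⟨s, hs⟩ : ∃ s : Fin N → ℤ, s = fun i => ((SignType.sign (cr (A i) (B i) (C i)) : SignType) : ℤ) :=
    ⟨_, rfl⟩
  obtain ⟨sT, hsT⟩ : ∃ sT : ℤ, sT = ((SignType.sign (cr P Q S) : SignType) : ℤ) := ⟨_, rfl⟩
  have hcr : cr P Q S ≠ 0 := by
    intro h0
    have e1 : (Q.re - P.re) ^ 2 + (Q.im - P.im) ^ 2 = X ^ 2 := by
      have := Complex.normSq_eq_norm_sq (Q - P)
      rw [← dist_eq_norm, dist_comm, hPQ, Complex.normSq_apply] at this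
      simp only [Complex.sub_re, Complex.sub_im] at this
      linarith
    have e2 : (S.re - P.re) ^ 2 + (S.im - P.im) ^ 2 = X ^ 2 := by
      have := Complex.normSq_eq_norm_sq (S - P)
      rw [← dist_eq_norm, hSP, Complex.normSq_apply] at this
      simp only [Complex.sub_re, Complex.sub_im] at this
      linarith
    have e3 : (S.re - Q.re) ^ 2 + (S.im - Q.im) ^ 2 = X ^ 2 := by
      have := Complex.normSq_eq_norm_sq (S - Q)
      rw [← dist_eq_norm, dist_comm, hQS, Complex.normSq_apply] at this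
      simp only [Complex.sub_re, Complex.sub_im] at this
      linarith
    have e4 : (Q.re - P.re) * (S.re - P.re) + (Q.im - P.im) * (S.im - P.im) = X ^ 2 / 2 := by
      nlinarith
    have e5 : cr P Q S ^ 2 + ((Q.re - P.re) * (S.re - P.re) + (Q.im - P.im) * (S.im - P.im)) ^ 2
        = ((Q.re - P.re) ^ 2 + (Q.im - P.im) ^ 2) * ((S.re - P.re) ^ 2 + (S.im - P.im) ^ 2) := by
      unfold cr; ring
    rw [e4, e1, e2, h0] at e5
    have : 0 < X ^ 4 := by positivity
    nlinarith
  have hsT2 : sT * sT = 1 := by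
    rw [hsT]
    rcases lt_or_gt_of_ne hcr with h | h
    · rw [sign_neg h]; simp
    · rw [sign_pos h]; simp
  -- the identity in every direction
  have hid : ∀ v : ℂ, ‖v‖ = 1 →
      ((∑ i, s i * (c * del (d i) v + a * del (d2 i) v + b * del (d3 i) v) : ℤ) : ℝ) =
        (sT : ℝ) * (X * ((del g v + del g2 v + del g3 v : ℤ) : ℝ)) := by
    intro v hv
    have h := directed hT v hv
    have e1 : ∀ i, vd v (A i) (B i) = c * (del (d i) v : ℝ) := fun i =>
      vd_del v _ _ (d i) c hv (hd i) (h1 i)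
    have e2 : ∀ i, vd v (B i) (C i) = a * (del (d2 i) v : ℝ) := fun i =>
      vd_del v _ _ (d2 i) a hv (n2 i) (by rw [hd2]; exact h2 i)
    have e3 : ∀ i, vd v (C i) (A i) = b * (del (d3 i) v : ℝ) := fun i =>
      vd_del v _ _ (d3 i) b hv (n3 i) (by rw [hd3]; exact h3 i)
    rw [vd_del v P Q g X hv hg hg1, vd_del v Q S g2 X hv ng2 (by rw [hg2']; exact hg2),
      vd_del v S P g3 X hv ng3 (by rw [hg3']; exact hg3)] at h
    simp only [e1, e2, e3, sign_cast] at h
    rw [hs, hsT]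
    push_cast
    push_cast at h
    rw [h]
    ring
  -- `X` is an integer
  have hz : ∀ m : ℤ, (m = 2 * k ∨ m = 4 * k) → (ζ ^ m).im ≠ 0 := by
    have z2 : ζ ^ (2 : ℤ) = ζ - 1 := by
      have : ζ ^ (2 : ℤ) = ζ ^ 2 := by norm_cast
      rw [this, ζ_sq]
    have z4 : ζ ^ (4 : ℤ) = -ζ := by
      have : ζ ^ (4 : ℤ) = ζ ^ 3 * ζ := by norm_cast
      rw [this, ζ_cube]; ring
    have hmul : ζ * (1 - ζ) = 1 := by linear_combination -ζ_sq
    have zm2 : ζ ^ (-2 : ℤ) = -ζ := by
      rw [zpow_neg, z2]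
      exact inv_eq_of_mul_eq_one_left (by linear_combination hmul)
    have zm4 : ζ ^ (-4 : ℤ) = ζ - 1 := by
      rw [zpow_neg, z4]
      exact inv_eq_of_mul_eq_one_left (by linear_combination hmul)
    have hz1 : (ζ - 1).im ≠ 0 := by simp [ζ]
    have hz2 : (-ζ).im ≠ 0 := by simp [ζ]
    intro m hm
    rcases hk with rfl | rfl <;> rcases hm with rfl | rfl
    · rw [show (2 * 1 : ℤ) = 2 by norm_num, z2]; exact hz1
    · rw [show (4 * 1 : ℤ) = 4 by norm_num, z4]; exact hz2
    · rw [show (2 * (-1) : ℤ) = -2 by norm_num, zm2]; exact hz2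
    · rw [show (4 * (-1) : ℤ) = -4 by norm_num, zm4]; exact hz1
  have hdel0 : ∀ m : ℤ, (m = 2 * k ∨ m = 4 * k) → del (g * ζ ^ m) g = 0 := by
    intro m hm
    have := hz m hm
    unfold del
    rw [if_neg, if_neg]
    · intro h
      have h' : ζ ^ m = -1 := by
        have : g * ζ ^ m = g * (-1) := by rw [h]; ring
        exact mul_left_cancel₀ hg0 this
      rw [h'] at this
      simp at this
    · intro h
      have h' : ζ ^ m = 1 := by
        have : g * ζ ^ m = g * 1 := by rw [h]; ring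
        exact mul_left_cancel₀ hg0 this
      rw [h'] at this
      simp at this
  obtain ⟨x, hx⟩ : ∃ x : ℤ, X = x := by
    have h := hid g hg
    have e1 : del g g = 1 := by unfold del; simp
    have e2 : del g2 g = 0 := by rw [hg2']; exact hdel0 _ (Or.inl rfl)
    have e3 : del g3 g = 0 := by rw [hg3']; exact hdel0 _ (Or.inr rfl)
    rw [e1, e2, e3] at h
    refine ⟨sT * ∑ i, s i * (c * del (d i) g + a * del (d2 i) g + b * del (d3 i) g), ?_⟩
    rw [Int.cast_mul, h]
    have : (sT : ℝ) * sT = 1 := by exact_mod_cast hsT2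
    push_cast
    linear_combination (-X) * this
  have hidZ : ∀ v : ℂ, ‖v‖ = 1 →
      (∑ i, s i * (c * del (d i) v + a * del (d2 i) v + b * del (d3 i) v) : ℤ) =
        sT * (x * (del g v + del g2 v + del g3 v)) := by
    intro v hv
    have h := hid v hv
    rw [hx] at h
    exact_mod_cast h
  -- the weights
  obtain ⟨t, ht2, htc⟩ := exists_unit a b c hab' hc2
  obtain ⟨f, hf⟩ : ∃ f : ℂ → ZMod (3 * (a * b)), f = wt t g (eps a b c) := ⟨_, rfl⟩
  have hmul : ∀ (e : ℂ) (i l : ℤ), f (e * ζ ^ i * eps a b c ^ l) =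
      (((-1 : (ZMod (3 * (a * b)))ˣ) ^ i * t ^ l : (ZMod (3 * (a * b)))ˣ) : ZMod (3 * (a * b))) * f e := by
    intro e i l
    rw [hf]
    exact wt_mul t ha hb hc hab' hc2 g hg0 e i l
  have hodd : ∀ e, f (-e) = -f e := by
    intro e
    have h := hmul e 3 0
    have e1 : e * ζ ^ (3 : ℤ) * eps a b c ^ (0 : ℤ) = -e := by
      have : ζ ^ (3 : ℤ) = ζ ^ 3 := by norm_cast
      rw [this, ζ_cube]; simp
    rw [e1] at h
    rw [h]
    have : ((-1 : (ZMod (3 * (a * b)))ˣ) ^ (3 : ℤ) * t ^ (0 : ℤ) : (ZMod (3 * (a * b)))ˣ) = -1 := by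
      rw [zpow_zero, mul_one]
      have : ((-1 : (ZMod (3 * (a * b)))ˣ)) ^ (3 : ℤ) = (-1) ^ 3 := by norm_cast
      rw [this]
      exact Odd.neg_one_pow (by decide)
    rw [this]
    simp
  have hfg : f g = 1 := by
    have h := wt_of t ha hb hc hab' hc2 g hg0 0 0
    simp only [zpow_zero, mul_one, Units.val_one] at h
    rw [hf]; exact h
  have htj : ∀ l : ℤ, (l = 1 ∨ l = -1) → t ^ l = t := by
    rintro l (rfl | rfl)
    · simp
    · rw [zpow_neg_one]
      have : t * t = 1 := by rw [← pow_two]; exact ht2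
      exact inv_eq_of_mul_eq_one_left this
  have heven : ∀ l : ℤ, ((-1 : (ZMod (3 * (a * b)))ˣ)) ^ (2 * l) = 1 := by
    intro l
    exact (even_two_mul l).neg_one_zpow
  have hf2 : ∀ i, f (d2 i) = t * f (d i) := by
    intro i
    rw [hd2]
    simp only
    rw [hmul, heven, one_mul, htj _ (hj i)]
  have hf3 : ∀ i, f (d3 i) = -(t * f (d i)) := by
    intro i
    rw [hd3]
    simp only
    rw [hmul, htj _ (hj i)]
    have : ((-1 : (ZMod (3 * (a * b)))ˣ)) ^ (3 : ℤ) = -1 := by
      have : ((-1 : (ZMod (3 * (a * b)))ˣ)) ^ (3 : ℤ) = (-1) ^ 3 := by norm_cast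
      rw [this]
      exact Odd.neg_one_pow (by decide)
    rw [this]
    simp
  have hfg2 : f g2 = 1 := by
    have h := hmul g (2 * k) 0
    rw [heven, zpow_zero, zpow_zero, mul_one, mul_one, Units.val_one, one_mul, hfg] at h
    rw [hg2']; exact h
  have hfg3 : f g3 = 1 := by
    have h := hmul g (2 * (2 * k)) 0
    rw [heven, zpow_zero, zpow_zero, mul_one, mul_one, Units.val_one, one_mul, hfg] at h
    rw [hg3', show 4 * k = 2 * (2 * k) by ring]; exact h
  -- sum over half of the directions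
  obtain ⟨D, hD⟩ : ∃ D : Finset ℂ, D = (Finset.univ.image fun i => nh (d i)) ∪
      (Finset.univ.image fun i => nh (d2 i)) ∪ (Finset.univ.image fun i => nh (d3 i)) ∪
      {nh g, nh g2, nh g3} := ⟨_, rfl⟩
  have hne : ∀ e : ℂ, ‖e‖ = 1 → e ≠ 0 := by rintro e he rfl; simp at he
  have hnn : ∀ e : ℂ, ‖nh e‖ = ‖e‖ := by
    intro e; unfold nh; split_ifs <;> simp
  have hDp : ∀ v ∈ D, ‖v‖ = 1 ∧ (0 < v.im ∨ (v.im = 0 ∧ 0 < v.re)) := by
    intro v hv
    rw [hD] at hv
    simp only [Finset.mem_union, Finset.mem_image, Finset.mem_univ, true_and, Finset.mem_insert,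
      Finset.mem_singleton] at hv
    rcases hv with ((⟨i, rfl⟩ | ⟨i, rfl⟩) | ⟨i, rfl⟩) | rfl | rfl | rfl
    · exact ⟨by rw [hnn]; exact hd i, nh_half _ (hne _ (hd i))⟩
    · exact ⟨by rw [hnn]; exact n2 i, nh_half _ (hne _ (n2 i))⟩
    · exact ⟨by rw [hnn]; exact n3 i, nh_half _ (hne _ (n3 i))⟩
    · exact ⟨by rw [hnn]; exact hg, nh_half _ (hne _ hg)⟩
    · exact ⟨by rw [hnn]; exact ng2, nh_half _ (hne _ ng2)⟩
    · exact ⟨by rw [hnn]; exact ng3, nh_half _ (hne _ ng3)⟩
  have hw : ∀ e : ℂ, ‖e‖ = 1 → nh e ∈ D →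
      ∑ v ∈ D, f v * ((del e v : ℤ) : ZMod (3 * (a * b))) = f e := fun e he heD =>
    wsum f hodd D (fun v hv => (hDp v hv).2) e (hne e he) heD
  have hDd : ∀ i, nh (d i) ∈ D := by intro i; rw [hD]; simp
  have hDd2 : ∀ i, nh (d2 i) ∈ D := by intro i; rw [hD]; simp
  have hDd3 : ∀ i, nh (d3 i) ∈ D := by intro i; rw [hD]; simp
  have hDg : nh g ∈ D := by rw [hD]; simp
  have hDg2 : nh g2 ∈ D := by rw [hD]; simp
  have hDg3 : nh g3 ∈ D := by rw [hD]; simp
  have hsum : ∑ v ∈ D, f v * ((∑ i, s i * (c * del (d i) v + a * del (d2 i) v + b * del (d3 i) v) : ℤ) :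
      ZMod (3 * (a * b))) = ∑ v ∈ D, f v * ((sT * (x * (del g v + del g2 v + del g3 v)) : ℤ) :
      ZMod (3 * (a * b))) :=
    Finset.sum_congr rfl fun v hv => by rw [hidZ v (hDp v hv).1]
  have hL : ∑ v ∈ D, f v * ((∑ i, s i * (c * del (d i) v + a * del (d2 i) v + b * del (d3 i) v) : ℤ) :
      ZMod (3 * (a * b))) = 0 := by
    have e1 : ∀ v ∈ D, f v * ((∑ i, s i * (c * del (d i) v + a * del (d2 i) v + b * del (d3 i) v) : ℤ) :
        ZMod (3 * (a * b))) = ∑ i, ((s i : ℤ) : ZMod (3 * (a * b))) *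
          (c * (f v * ((del (d i) v : ℤ) : ZMod (3 * (a * b)))) +
           a * (f v * ((del (d2 i) v : ℤ) : ZMod (3 * (a * b)))) +
           b * (f v * ((del (d3 i) v : ℤ) : ZMod (3 * (a * b))))) := by
      intro v _
      push_cast
      rw [Finset.mul_sum]
      exact Finset.sum_congr rfl fun i _ => by ring
    rw [Finset.sum_congr rfl e1, Finset.sum_comm]
    apply Finset.sum_eq_zero
    intro i _
    rw [← Finset.mul_sum, Finset.sum_add_distrib, Finset.sum_add_distrib, ← Finset.mul_sum,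
      ← Finset.mul_sum, ← Finset.mul_sum, hw _ (hd i) (hDd i), hw _ (n2 i) (hDd2 i),
      hw _ (n3 i) (hDd3 i), hf2, hf3]
    linear_combination ((s i : ℤ) : ZMod (3 * (a * b))) * f (d i) * htc
  have hR : ∑ v ∈ D, f v * ((sT * (x * (del g v + del g2 v + del g3 v)) : ℤ) :
      ZMod (3 * (a * b))) = ((sT * (3 * x) : ℤ) : ZMod (3 * (a * b))) := by
    have e1 : ∀ v ∈ D, f v * ((sT * (x * (del g v + del g2 v + del g3 v)) : ℤ) :
        ZMod (3 * (a * b))) = ((sT * x : ℤ) : ZMod (3 * (a * b))) *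
          (f v * ((del g v : ℤ) : ZMod (3 * (a * b))) + f v * ((del g2 v : ℤ) : ZMod (3 * (a * b))) +
            f v * ((del g3 v : ℤ) : ZMod (3 * (a * b)))) := by
      intro v _
      push_cast
      ring
    rw [Finset.sum_congr rfl e1, ← Finset.mul_sum, Finset.sum_add_distrib,
      Finset.sum_add_distrib, hw _ hg hDg, hw _ ng2 hDg2, hw _ ng3 hDg3, hfg, hfg2, hfg3]
    push_cast
    ring
  rw [hL, hR] at hsum
  have hdvd : ((3 * (a * b) : ℕ) : ℤ) ∣ sT * (3 * x) :=
    (ZMod.intCast_zmod_eq_zero_iff_dvd _ _).1 hsum.symm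
  have hdvd2 : (3 * ((a : ℤ) * b)) ∣ 3 * x := by
    have h4 : (3 * ((a : ℤ) * b)) ∣ sT * (sT * (3 * x)) := by
      have := hdvd.mul_left sT
      push_cast at this
      exact this
    have h5 : sT * (sT * (3 * x)) = 3 * x := by linear_combination (3 * x) * hsT2
    rwa [h5] at h4
  have hdvd3 : ((a : ℤ) * b) ∣ x := (mul_dvd_mul_iff_left (by norm_num)).1 hdvd2
  obtain ⟨m, hm⟩ := hdvd3
  have hxpos : 0 < x := by
    have : (0 : ℝ) < x := by rw [← hx]; exact hX
    exact_mod_cast this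
  have habpos : (0 : ℤ) < (a : ℤ) * b := by positivity
  have hmpos : 0 < m := by
    by_contra hcon
    push Not at hcon
    nlinarith
  refine ⟨m.toNat, by omega, ?_⟩
  have hmc : ((m.toNat : ℕ) : ℝ) = (m : ℝ) := by
    have : ((m.toNat : ℕ) : ℤ) = m := Int.toNat_of_nonneg hmpos.le
    exact_mod_cast this
  rw [hmc, hx, hm]
  push_cast
  ring

end Main

end Pool.Agent.Results.MP_9dc182_co.DivisibleByAB
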